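import Mathlib
import Pool.Graph.R_pool_sql_team_seeded_2aa45f1a.Q253.OR.Part

/-!
# Oriented cycle double covers of cubic graphs and symmetric flows modulo two
-/

set_option autoImplicit false

namespace Pool.Agent.H66.OC

open Finset

variable {V : Type}

/-- the three neighbours of every vertex, in some order -/
structure Cub (G : SimpleGraph V) where
  N : V → Fin 3 → V
  inj : ∀ v, Function.Injective (N v)
  adj : ∀ v w, G.Adj v w ↔ ∃ i, N v i = w

theorem exists_cub (G : SimpleGraph V) (h : ∀ v, (G.neighborSet v).ncard = 3) :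
    Nonempty (Cub G) := by
  have h1 : ∀ v, ∃ f : Fin 3 → V, Function.Injective f ∧ ∀ w, G.Adj v w ↔ ∃ i, f i = w := by
    intro v
    obtain ⟨x, y, z, hxy, hxz, hyz, hN⟩ := Set.ncard_eq_three.1 (h v)
    refine ⟨![x, y, z], ?_, ?_⟩
    · intro i j hij
      fin_cases i <;> fin_cases j <;> simp_all
    · intro w
      rw [← SimpleGraph.mem_neighborSet, hN]
      constructor
      · rintro (rfl | rfl | rfl)
        · exact ⟨0, rfl⟩
        · exact ⟨1, rfl⟩
        · exact ⟨2, rfl⟩
      · rintro ⟨i, rfl⟩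
        fin_cases i <;> simp
  choose f h2 h3 using h1
  exact ⟨⟨f, h2, h3⟩⟩

namespace Cub

variable {G : SimpleGraph V} (C : Cub G)

theorem adjN (v : V) (i : Fin 3) : G.Adj v (C.N v i) := (C.adj v _).2 ⟨i, rfl⟩

open scoped Classical in
theorem sum_nb [Fintype V] {M : Type} [AddCommMonoid M] (v : V) (f : V → M) :
    ∑ w, (if G.Adj v w then f w else 0) = ∑ i, f (C.N v i) := by
  rw [← Finset.sum_filter]
  have h : (univ.filter fun w => G.Adj v w) = univ.map ⟨C.N v, C.inj v⟩ := by
    ext w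
    simp [C.adj]
  rw [h, Finset.sum_map]
  rfl

/-- the position of a neighbour -/
noncomputable def pos (v w : V) (h : G.Adj v w) : Fin 3 := ((C.adj v w).1 h).choose

theorem N_pos (v w : V) (h : G.Adj v w) : C.N v (C.pos v w h) = w := ((C.adj v w).1 h).choose_spec

theorem pos_N (v : V) (i : Fin 3) (h : G.Adj v (C.N v i)) : C.pos v (C.N v i) h = i :=
  C.inj v (C.N_pos v _ h)

open scoped Classical in
/-- the neighbour of `v` after `w` -/
noncomputable def nx (v w : V) : V := if h : G.Adj v w then C.N v (C.pos v w h + 1) else v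

theorem nx_N (v : V) (i : Fin 3) : C.nx v (C.N v i) = C.N v (i + 1) := by
  unfold nx
  rw [dif_pos (C.adjN v i), C.pos_N]

end Cub

/-- sums over arcs -/
theorem sum_arcs [Fintype V] (r : V → V → Prop) [DecidableRel r]
    (hr2 : ∀ u v, u ≠ v → (r u v ↔ ¬ r v u))
    {M : Type} [AddCommMonoid M] (g : V → V → M) (hg : ∀ u, g u u = 0) :
    ∑ u, ∑ v, (if r u v then g u v + g v u else 0) = ∑ u, ∑ v, g u v := by
  have h1 : ∑ u, ∑ v, (if r u v then g u v + g v u else 0) =
      ∑ u, ∑ v, (if r u v then g u v else 0) + ∑ u, ∑ v, (if r u v then g v u else 0) := by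
    rw [← Finset.sum_add_distrib]
    refine Finset.sum_congr rfl fun u _ => ?_
    rw [← Finset.sum_add_distrib]
    refine Finset.sum_congr rfl fun v _ => ?_
    split_ifs <;> simp
  have h2 : ∑ u, ∑ v, (if r u v then g v u else 0) = ∑ u, ∑ v, (if r v u then g u v else 0) :=
    Finset.sum_comm
  rw [h1, h2, ← Finset.sum_add_distrib]
  refine Finset.sum_congr rfl fun u _ => ?_
  rw [← Finset.sum_add_distrib]
  refine Finset.sum_congr rfl fun v _ => ?_
  by_cases huv : u = v
  · subst huv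
    simp [hg]
  · by_cases h3 : r u v
    · have := (hr2 u v huv).1 h3
      simp [h3, this]
    · have : r v u := by
        by_contra h4
        exact h3 ((hr2 u v huv).2 h4)
      simp [h3, this]


/-! ### The definitions used in the statement -/

open scoped Classical in
/-- `x` is a flow of `G` with values in `F₂^k`: its values on the edges at a vertex have sum zero -/
def Flow2 [Fintype V] (G : SimpleGraph V) {k : ℕ} (x : Sym2 V → Fin k → ZMod 2) : Prop :=
  ∀ v, ∑ w, (if G.Adj v w then x s(v, w) else 0) = 0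

/-- the scalar products of the values of `x` and `y` on any two edges with a common end are
symmetric -/
def SymmetricTo (G : SimpleGraph V) {k : ℕ} (x y : Sym2 V → Fin k → ZMod 2) : Prop :=
  ∀ v a b, G.Adj v a → G.Adj v b → x s(v, a) ⬝ᵥ y s(v, b) = x s(v, b) ⬝ᵥ y s(v, a)

/-- the scalar products of the values of `x` and `y` on two of the edges at `v` form a nonsingular
matrix -/
def NonsingularAt (G : SimpleGraph V) {k : ℕ} (x y : Sym2 V → Fin k → ZMod 2) (v : V) : Prop :=
  ∃ a b, G.Adj v a ∧ G.Adj v b ∧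
    (x s(v, a) ⬝ᵥ y s(v, a)) * (x s(v, b) ⬝ᵥ y s(v, b)) ≠
      (x s(v, a) ⬝ᵥ y s(v, b)) * (x s(v, b) ⬝ᵥ y s(v, a))

/-! ### Local computations -/

section local_
variable {k : ℕ} (x y : Fin 3 → Fin k → ZMod 2)

theorem two_eq (a b : Fin k → ZMod 2) (h : a + b = 0) : a = b := by
  have : a = -b := eq_neg_of_add_eq_zero_left h
  rw [this]
  funext i
  simp [ZMod.neg_eq_self_mod_two]

theorem x2 (hx : ∑ i, x i = 0) : x 2 = x 0 + x 1 := by
  rw [Fin.sum_univ_three] at hx
  exact (two_eq _ _ hx).symm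

theorem sym_iff (hx : ∑ i, x i = 0) (hy : ∑ i, y i = 0) :
    (∀ i j, x i ⬝ᵥ y j = x j ⬝ᵥ y i) ↔ ∑ i, y i ⬝ᵥ x i = 0 := by
  have h1 := x2 x hx
  have h2 := x2 y hy
  rw [Fin.sum_univ_three, h1, h2]
  simp only [dotProduct_add, add_dotProduct]
  rw [dotProduct_comm (y 0) (x 0), dotProduct_comm (y 1) (x 1), dotProduct_comm (y 1) (x 0),
    dotProduct_comm (y 0) (x 1)]
  constructor
  · intro h
    have h3 := h 0 1
    generalize x 0 ⬝ᵥ y 0 = p at *
    generalize x 1 ⬝ᵥ y 1 = q at *
    generalize x 0 ⬝ᵥ y 1 = r at *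
    generalize x 1 ⬝ᵥ y 0 = s at *
    clear h h1 h2
    revert p q r s
    decide
  · intro h
    have h3 : x 0 ⬝ᵥ y 1 = x 1 ⬝ᵥ y 0 := by
      generalize x 0 ⬝ᵥ y 0 = p at *
      generalize x 1 ⬝ᵥ y 1 = q at *
      generalize x 0 ⬝ᵥ y 1 = r at *
      generalize x 1 ⬝ᵥ y 0 = s at *
      clear h1 h2
      revert p q r s
      decide
    intro i j
    fin_cases i <;> fin_cases j <;>
      simp [h1, h2, dotProduct_add, add_dotProduct, h3]

/-- the table of scalar products -/
def tab (p q r : ZMod 2) : Fin 3 → Fin 3 → ZMod 2 :=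
  ![![p, r, p + r], ![r, q, r + q], ![p + r, r + q, p + q]]

theorem tab_eq (hx : ∑ i, x i = 0) (hy : ∑ i, y i = 0)
    (hs : ∀ i j, x i ⬝ᵥ y j = x j ⬝ᵥ y i) :
    ∃ p q r, ∀ i j, x i ⬝ᵥ y j = tab p q r i j := by
  have h1 := x2 x hx
  have h2 := x2 y hy
  have h3 := hs 0 1
  refine ⟨x 0 ⬝ᵥ y 0, x 1 ⬝ᵥ y 1, x 0 ⬝ᵥ y 1, ?_⟩
  intro i j
  generalize hp : x 0 ⬝ᵥ y 0 = p
  generalize hq : x 1 ⬝ᵥ y 1 = q
  generalize hr : x 0 ⬝ᵥ y 1 = r
  rw [hr] at h3
  fin_cases i <;> fin_cases j <;>
    simp only [Fin.zero_eta, Fin.mk_one, Fin.reduceFinMk, h1, h2, dotProduct_add, add_dotProduct,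
      hp, hq, hr, ← h3, tab, Matrix.cons_val_zero, Matrix.cons_val_one, Matrix.cons_val]
  · clear hp hq hr h1 h2 h3
    revert p q r
    decide

theorem local_main (hx : ∑ i, x i = 0) (hy : ∑ i, y i = 0)
    (hs : ∀ i j, x i ⬝ᵥ y j = x j ⬝ᵥ y i) (P : Prop) [Decidable P]
    (hP : P ↔ ∃ i j, (x i ⬝ᵥ y i) * (x j ⬝ᵥ y j) ≠ (x i ⬝ᵥ y j) * (x j ⬝ᵥ y i)) :
    (if P then (1 : ZMod 2) else 0) = ∑ i, x (i + 1) ⬝ᵥ y i +
      (if ∃ i, x i ⬝ᵥ y i ≠ 0 then 1 else 0) := by
  obtain ⟨p, q, r, h⟩ := tab_eq x y hx hy hs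
  simp only [h] at hP ⊢
  have key : ∀ p q r : ZMod 2,
      (if ∃ i j, tab p q r i i * tab p q r j j ≠ tab p q r i j * tab p q r j i
        then (1 : ZMod 2) else 0) = ∑ i, tab p q r (i + 1) i +
      (if ∃ i, tab p q r i i ≠ 0 then 1 else 0) := by
    decide
  rw [← key]
  by_cases hh : P
  · rw [if_pos hh, if_pos (hP.1 hh)]
  · rw [if_neg hh, if_neg (fun h' => hh (hP.2 h'))]

theorem local_two (hx : ∑ i, x i = 0) (hy : ∑ i, y i = 0)
    (hs : ∀ i j, x i ⬝ᵥ y j = x j ⬝ᵥ y i) :
    ∑ i, (x i ⬝ᵥ y i).val = 2 * (if ∃ i, x i ⬝ᵥ y i ≠ 0 then 1 else 0) := by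
  obtain ⟨p, q, r, h⟩ := tab_eq x y hx hy hs
  simp only [h]
  have key : ∀ p q r : ZMod 2,
      ∑ i, (tab p q r i i).val = 2 * (if ∃ i, tab p q r i i ≠ 0 then 1 else 0) := by
    decide
  exact key p q r

end local_

/-! ### The linear system -/

section system
variable [Fintype V] {G : SimpleGraph V} (C : Cub G) {k : ℕ} (x y : Sym2 V → Fin k → ZMod 2)

theorem flow_cub (hx : Flow2 G x) (v : V) : ∑ i, x s(v, C.N v i) = 0 := by
  classical
  have h := hx v
  rw [C.sum_nb v (fun w => x s(v, w))] at h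
  exact h

theorem flow_of_cub (h : ∀ v, ∑ i, x s(v, C.N v i) = 0) : Flow2 G x := by
  classical
  intro v
  rw [C.sum_nb v (fun w => x s(v, w))]
  exact h v

omit [Fintype V] in
theorem sym_cub (hs : SymmetricTo G x y) (v : V) (i j : Fin 3) :
    x s(v, C.N v i) ⬝ᵥ y s(v, C.N v j) = x s(v, C.N v j) ⬝ᵥ y s(v, C.N v i) :=
  hs v _ _ (C.adjN v i) (C.adjN v j)

omit [Fintype V] in
theorem nonsing_cub (v : V) : NonsingularAt G x y v ↔ ∃ i j,
    (x s(v, C.N v i) ⬝ᵥ y s(v, C.N v i)) * (x s(v, C.N v j) ⬝ᵥ y s(v, C.N v j)) ≠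
      (x s(v, C.N v i) ⬝ᵥ y s(v, C.N v j)) * (x s(v, C.N v j) ⬝ᵥ y s(v, C.N v i)) := by
  constructor
  · rintro ⟨a, b, ha, hb, h⟩
    obtain ⟨i, rfl⟩ := (C.adj v a).1 ha
    obtain ⟨j, rfl⟩ := (C.adj v b).1 hb
    exact ⟨i, j, h⟩
  · rintro ⟨i, j, h⟩
    exact ⟨_, _, C.adjN v i, C.adjN v j, h⟩

open scoped Classical in
/-- one if some edge at `v` has nonzero scalar product -/
noncomputable def odn (v : V) : ℕ :=
  if ∃ i, x s(v, C.N v i) ⬝ᵥ y s(v, C.N v i) ≠ 0 then 1 else 0

/-- the cyclic sum -/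
noncomputable def Kv (v : V) : ZMod 2 := ∑ i, x s(v, C.N v (i + 1)) ⬝ᵥ y s(v, C.N v i)

variable (r : V → V → Prop) [DecidableRel r] (hr : ∀ u v, u ≠ v → (r u v ↔ ¬ r v u))

include hr in
theorem sum_arcs' {M : Type} [AddCommMonoid M] (g : V → V → M)
    (hg : ∀ u v, ¬ G.Adj u v → g u v = 0) :
    ∑ u, ∑ v, (if r u v then g u v + g v u else 0) = ∑ u, ∑ i, g u (C.N u i) := by
  classical
  rw [sum_arcs r hr g (fun u => hg u u (G.loopless.irrefl u))]
  refine Finset.sum_congr rfl fun u _ => ?_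
  rw [← C.sum_nb u (fun w => g u w)]
  refine Finset.sum_congr rfl fun v _ => ?_
  split_ifs with h
  · rfl
  · exact hg u v h

include hr in
open scoped Classical in
theorem sum_od (hx : Flow2 G x) (hy : Flow2 G y) (hs : SymmetricTo G x y) :
    ∑ u, ∑ v, (if r u v then (if G.Adj u v then x s(u, v) ⬝ᵥ y s(u, v) else 0) else 0) =
      ∑ v, (odn C x y v : ZMod 2) := by
  have h1 := sum_arcs' C r hr (fun u v => if G.Adj u v then (x s(u, v) ⬝ᵥ y s(u, v)).val else 0)
    (fun u v h => if_neg h)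
  have h2 : ∀ u, ∑ i, (if G.Adj u (C.N u i) then (x s(u, C.N u i) ⬝ᵥ y s(u, C.N u i)).val else 0) =
      2 * odn C x y u := by
    intro u
    have h3 := local_two (fun i => x s(u, C.N u i)) (fun i => y s(u, C.N u i))
      (flow_cub C x hx u) (flow_cub C y hy u) (sym_cub C x y hs u)
    unfold odn
    rw [← h3]
    exact Finset.sum_congr rfl fun i _ => if_pos (C.adjN u i)
  rw [Finset.sum_congr rfl fun u _ => h2 u, ← Finset.mul_sum] at h1
  have h4 : ∑ u, ∑ v, (if r u v then (if G.Adj u v then (x s(u, v) ⬝ᵥ y s(u, v)).val else 0) +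
      (if G.Adj v u then (x s(v, u) ⬝ᵥ y s(v, u)).val else 0) else 0) =
      2 * ∑ u, ∑ v, (if r u v then (if G.Adj u v then (x s(u, v) ⬝ᵥ y s(u, v)).val else 0) else 0) := by
    rw [Finset.mul_sum]
    refine Finset.sum_congr rfl fun u _ => ?_
    rw [Finset.mul_sum]
    refine Finset.sum_congr rfl fun v _ => ?_
    rw [Sym2.eq_swap (a := v) (b := u)]
    by_cases h5 : G.Adj u v
    · have h6 := h5.symm
      simp only [h5, h6, if_true]
      split_ifs <;> omega
    · have h6 : ¬ G.Adj v u := fun h => h5 h.symm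
      simp [h5, h6]
  rw [h4] at h1
  have h5 := Nat.eq_of_mul_eq_mul_left (by norm_num : 0 < 2) h1
  have h6 := congrArg (fun n : ℕ => (n : ZMod 2)) h5
  simp only [Nat.cast_sum] at h6
  rw [← h6]
  refine Finset.sum_congr rfl fun u _ => Finset.sum_congr rfl fun v _ => ?_
  split_ifs <;> simp

/-- the linear system -/
def Sys (m : V → Fin k → ZMod 2) (ε : V → ZMod 2) : Prop :=
  ∀ u v, G.Adj u v → m u + m v + (ε u + ε v) • x s(u, v) =
    x s(u, v) + x s(u, C.nx u v) + x s(v, C.nx v u)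

open scoped Classical in
theorem sum_inv (hx : Flow2 G x) (hy : Flow2 G y) (hs : SymmetricTo G x y) :
    ∑ v, (if NonsingularAt G x y v then (1 : ZMod 2) else 0) =
      ∑ v, Kv C x y v + ∑ v, (odn C x y v : ZMod 2) := by
  rw [← Finset.sum_add_distrib]
  refine Finset.sum_congr rfl fun v _ => ?_
  rw [local_main (fun i => x s(v, C.N v i)) (fun i => y s(v, C.N v i))
      (flow_cub C x hx v) (flow_cub C y hy v) (sym_cub C x y hs v) _ (nonsing_cub C x y v)]
  unfold Kv odn
  congr 1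
  split_ifs <;> simp

theorem add_self_vec (a : Fin k → ZMod 2) : a + a = 0 := by
  funext i
  exact CharTwo.add_self_eq_zero _

/-- the flow condition and the diagonal condition give this identity for every choice of `m`, `ε` -/
theorem sum_h (hy : Flow2 G y) (hd : ∀ v, ∑ i, x s(v, C.N v i) ⬝ᵥ y s(v, C.N v i) = 0)
    (m : V → Fin k → ZMod 2) (ε : V → ZMod 2) :
    ∑ u, ∑ i, (m u + ε u • x s(u, C.N u i) + x s(u, C.nx u (C.N u i))) ⬝ᵥ y s(u, C.N u i) =
      ∑ u, Kv C x y u := by
  refine Finset.sum_congr rfl fun u _ => ?_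
  simp only [add_dotProduct, Finset.sum_add_distrib, smul_dotProduct, C.nx_N]
  rw [← dotProduct_sum, flow_cub C y hy u, dotProduct_zero, ← Finset.smul_sum, hd, smul_zero,
    zero_add, zero_add]
  rfl

omit [Fintype V] in
theorem diag_zero_of_sym [Fintype V] (hx : Flow2 G x) (hy : Flow2 G y) (hs : SymmetricTo G x y)
    (v : V) : ∑ i, x s(v, C.N v i) ⬝ᵥ y s(v, C.N v i) = 0 := by
  have h := (sym_iff (fun i => x s(v, C.N v i)) (fun i => y s(v, C.N v i))
    (flow_cub C x hx v) (flow_cub C y hy v)).1 (sym_cub C x y hs v)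
  rw [← h]
  exact Finset.sum_congr rfl fun i _ => dotProduct_comm _ _

include hr in
open scoped Classical in
theorem parity_of_sys (hx : Flow2 G x) (hy : Flow2 G y) (hs : SymmetricTo G x y)
    (m : V → Fin k → ZMod 2) (ε : V → ZMod 2) (h : Sys C x m ε) :
    ∑ v, (if NonsingularAt G x y v then (1 : ZMod 2) else 0) = 0 := by
  rw [sum_inv C x y hx hy hs, ← sum_od C x y r hr hx hy hs,
    ← sum_h C x y hy (diag_zero_of_sym C x y hx hy hs) m ε]
  have h1 := sum_arcs' C r hr (fun u v => if G.Adj u v then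
    (m u + ε u • x s(u, v) + x s(u, C.nx u v)) ⬝ᵥ y s(u, v) else 0) (fun u v h => if_neg h)
  have h2 : ∑ u, ∑ i, (m u + ε u • x s(u, C.N u i) + x s(u, C.nx u (C.N u i))) ⬝ᵥ y s(u, C.N u i) =
      ∑ u, ∑ i, (if G.Adj u (C.N u i) then
        (m u + ε u • x s(u, C.N u i) + x s(u, C.nx u (C.N u i))) ⬝ᵥ y s(u, C.N u i) else 0) :=
    Finset.sum_congr rfl fun u _ => Finset.sum_congr rfl fun i _ => (if_pos (C.adjN u i)).symm
  rw [h2, ← h1, ← Finset.sum_add_distrib]
  refine Finset.sum_eq_zero fun u _ => ?_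
  rw [← Finset.sum_add_distrib]
  refine Finset.sum_eq_zero fun v _ => ?_
  by_cases h3 : r u v
  · simp only [h3, if_true]
    by_cases h4 : G.Adj u v
    · have h5 := h4.symm
      simp only [h4, h5, if_true]
      rw [Sym2.eq_swap (a := v) (b := u), ← add_dotProduct, ← add_dotProduct]
      have h6 := h u v h4
      have h7 : m u + ε u • x s(u, v) + x s(u, C.nx u v) +
          (m v + ε v • x s(u, v) + x s(v, C.nx v u)) + x s(u, v) =
          (m u + m v + (ε u + ε v) • x s(u, v)) + (x s(u, v) + x s(u, C.nx u v) +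
            x s(v, C.nx v u)) := by
        rw [add_smul]
        abel
      rw [h7, h6, add_self_vec, zero_dotProduct]
    · have h5 : ¬ G.Adj v u := fun h => h4 h.symm
      simp [h4, h5]
  · simp [h3]

/-! ### Duality -/

/-- the map of the linear system -/
def sysMap (G : SimpleGraph V) [DecidableRel G.Adj] : ((V → Fin k → ZMod 2) × (V → ZMod 2)) →ₗ[ZMod 2]
    (V → V → Fin k → ZMod 2) where
  toFun p u v := if r u v then (if G.Adj u v then
    p.1 u + p.1 v + (p.2 u + p.2 v) • x s(u, v) else 0) else 0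
  map_add' p q := by
    funext u v
    simp only [Prod.fst_add, Prod.snd_add, Pi.add_apply]
    split_ifs
    · simp only [add_smul]; abel
    · simp
    · simp
  map_smul' c p := by
    funext u v
    simp only [Prod.smul_fst, Prod.smul_snd, Pi.smul_apply, RingHom.id_apply]
    split_ifs
    · simp only [smul_add, add_smul, smul_eq_mul, mul_smul]
    · simp
    · simp

omit [Fintype V] in
theorem dual_repr [Fintype V] (φ : Module.Dual (ZMod 2) (V → V → Fin k → ZMod 2)) :
    ∃ y' : V → V → Fin k → ZMod 2, ∀ c, φ c = ∑ u, ∑ v, c u v ⬝ᵥ y' u v := by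
  classical
  refine ⟨fun u v i => φ (Pi.single u (Pi.single v (Pi.single i 1))), fun c => ?_⟩
  conv_lhs => rw [← Finset.univ_sum_single c, map_sum]
  refine Finset.sum_congr rfl fun u _ => ?_
  conv_lhs => rw [← Finset.univ_sum_single (c u)]
  have h1 : ∀ f : V → V → Fin k → ZMod 2, Pi.single (M := fun _ => V → Fin k → ZMod 2) u (∑ v, f v) =
      ∑ v, Pi.single u (f v) := fun f =>
    map_sum (LinearMap.single (ZMod 2) (fun _ : V => V → Fin k → ZMod 2) u) f univ
  rw [h1, map_sum]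
  refine Finset.sum_congr rfl fun v _ => ?_
  have h2 : c u v = ∑ i, c u v i • (Pi.single i 1 : Fin k → ZMod 2) := by
    funext j
    simp [Finset.sum_apply, Pi.single_apply]
  conv_lhs => rw [h2]
  have h3 : ∀ f : Fin k → Fin k → ZMod 2, Pi.single (M := fun _ => V → Fin k → ZMod 2) u
      (Pi.single (M := fun _ => Fin k → ZMod 2) v (∑ i, c u v i • f i)) =
      ∑ i, c u v i • Pi.single u (Pi.single v (f i)) := fun f => by
    have := map_sum ((LinearMap.single (ZMod 2) (fun _ : V => V → Fin k → ZMod 2) u).comp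
      (LinearMap.single (ZMod 2) (fun _ : V => Fin k → ZMod 2) v)) (fun i => c u v i • f i) univ
    simp only [map_smul] at this
    exact this
  rw [h3, map_sum]
  simp only [map_smul, smul_eq_mul]
  rfl

/-- the values of the dual vector on the edges -/
noncomputable def lft (y' : V → V → Fin k → ZMod 2) (hr' : ∀ u v, r u v → ¬ r v u) :
    Sym2 V → Fin k → ZMod 2 :=
  Sym2.lift ⟨fun u v => if r u v then y' u v else if r v u then y' v u else 0, fun u v => by
    by_cases h1 : r u v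
    · have h2 := hr' u v h1
      simp [h1, h2]
    · simp [h1]⟩

omit [Fintype V] in
theorem lft_pos (y' : V → V → Fin k → ZMod 2) (hr' : ∀ u v, r u v → ¬ r v u) {u v : V}
    (h : r u v) : lft r y' hr' s(u, v) = y' u v := by
  unfold lft
  rw [Sym2.lift_mk]
  simp [h]

include hr in
open scoped Classical in
theorem sys_of_parity (hr' : ∀ u v, r u v → ¬ r v u) (hx : Flow2 G x)
    (h : ∀ y, Flow2 G y → SymmetricTo G x y →
      ∑ v, (if NonsingularAt G x y v then (1 : ZMod 2) else 0) = 0) :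
    ∃ (m : V → Fin k → ZMod 2) (ε : V → ZMod 2), Sys C x m ε := by
  set b : V → V → Fin k → ZMod 2 := fun u v => if r u v then (if G.Adj u v then
    x s(u, v) + x s(u, C.nx u v) + x s(v, C.nx v u) else 0) else 0 with hb
  by_cases hmem : b ∈ LinearMap.range (sysMap (V := V) x r G)
  · obtain ⟨⟨m, ε⟩, hme⟩ := hmem
    refine ⟨m, ε, ?_⟩
    have h1 : ∀ u v, r u v → G.Adj u v → m u + m v + (ε u + ε v) • x s(u, v) =
        x s(u, v) + x s(u, C.nx u v) + x s(v, C.nx v u) := by
      intro u v h2 h3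
      have h4 := congrFun (congrFun hme u) v
      simp only [sysMap, LinearMap.coe_mk, AddHom.coe_mk, hb, h2, h3, if_true] at h4
      exact h4
    intro u v huv
    by_cases h2 : r u v
    · exact h1 u v h2 huv
    · have h3 : r v u := by
        by_contra h4
        exact h2 ((hr u v huv.ne).2 h4)
      have h4 := h1 v u h3 huv.symm
      rw [Sym2.eq_swap (a := v) (b := u)] at h4
      rw [add_comm (m u), add_comm (ε u), h4]
      abel
  · exfalso
    obtain ⟨φ, h1, h2⟩ := Submodule.exists_le_ker_of_notMem hmem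
    obtain ⟨y', hy'⟩ := dual_repr φ
    set y := lft r y' hr' with hy
    have h3 : ∀ (m : V → Fin k → ZMod 2) (ε : V → ZMod 2),
        ∑ u, ∑ i, (m u + ε u • x s(u, C.N u i)) ⬝ᵥ y s(u, C.N u i) = 0 := by
      intro m ε
      have h4 : φ (sysMap x r G (m, ε)) = 0 := h2 ⟨_, rfl⟩
      rw [hy'] at h4
      have h5 := sum_arcs' C r hr (fun u v => if G.Adj u v then
        (m u + ε u • x s(u, v)) ⬝ᵥ y s(u, v) else 0) (fun u v h => if_neg h)
      have h6 : ∑ u, ∑ i, (m u + ε u • x s(u, C.N u i)) ⬝ᵥ y s(u, C.N u i) =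
          ∑ u, ∑ i, (if G.Adj u (C.N u i) then
            (m u + ε u • x s(u, C.N u i)) ⬝ᵥ y s(u, C.N u i) else 0) :=
        Finset.sum_congr rfl fun u _ => Finset.sum_congr rfl fun i _ => (if_pos (C.adjN u i)).symm
      rw [h6, ← h5]
      refine Eq.trans ?_ h4
      refine Finset.sum_congr rfl fun u _ => Finset.sum_congr rfl fun v _ => ?_
      by_cases h7 : r u v
      · by_cases h8 : G.Adj u v
        · have h9 := h8.symm
          simp only [sysMap, LinearMap.coe_mk, AddHom.coe_mk, h7, h8, h9, if_true]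
          rw [Sym2.eq_swap (a := v) (b := u), ← add_dotProduct, hy, lft_pos r y' hr' h7]
          congr 1
          rw [add_smul]
          abel
        · have h9 : ¬ G.Adj v u := fun h => h8 h.symm
          simp [sysMap, h8, h9]
      · simp [sysMap, h7]
    have hfy : Flow2 G y := by
      refine flow_of_cub C y fun v => ?_
      have h4 : ∀ a : Fin k → ZMod 2, a ⬝ᵥ ∑ i, y s(v, C.N v i) = 0 := by
        intro a
        have h5 := h3 (Pi.single v a) 0
        rw [Finset.sum_eq_single v] at h5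
        · simpa [dotProduct_sum] using h5
        · intro u _ hu
          refine Finset.sum_eq_zero fun i _ => ?_
          simp [Pi.single_eq_of_ne hu]
        · simp
      funext j
      have h5 := h4 (Pi.single j 1)
      simpa using h5
    have hd : ∀ v, ∑ i, x s(v, C.N v i) ⬝ᵥ y s(v, C.N v i) = 0 := by
      intro v
      have h5 := h3 0 (Pi.single v 1)
      rw [Finset.sum_eq_single v] at h5
      · simpa using h5
      · intro u _ hu
        refine Finset.sum_eq_zero fun i _ => ?_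
        simp [Pi.single_eq_of_ne hu]
      · simp
    have hs : SymmetricTo G x y := by
      intro v a c ha hc
      obtain ⟨i, rfl⟩ := (C.adj v a).1 ha
      obtain ⟨j, rfl⟩ := (C.adj v c).1 hc
      refine (sym_iff (fun i => x s(v, C.N v i)) (fun i => y s(v, C.N v i))
        (flow_cub C x hx v) (flow_cub C y hfy v)).2 ?_ i j
      rw [← hd v]
      exact Finset.sum_congr rfl fun i _ => dotProduct_comm _ _
    apply h1
    rw [← h y hfy hs, sum_inv C x y hx hfy hs, ← sum_od C x y r hr hx hfy hs,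
      ← sum_h C x y hfy hd 0 0, hy']
    have h5 := sum_arcs' C r hr (fun u v => if G.Adj u v then
      ((0 : V → Fin k → ZMod 2) u + (0 : V → ZMod 2) u • x s(u, v) + x s(u, C.nx u v)) ⬝ᵥ
        y s(u, v) else 0) (fun u v h => if_neg h)
    have h6 : ∑ u, ∑ i, ((0 : V → Fin k → ZMod 2) u + (0 : V → ZMod 2) u • x s(u, C.N u i) +
        x s(u, C.nx u (C.N u i))) ⬝ᵥ y s(u, C.N u i) =
        ∑ u, ∑ i, (if G.Adj u (C.N u i) then
          ((0 : V → Fin k → ZMod 2) u + (0 : V → ZMod 2) u • x s(u, C.N u i) +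
            x s(u, C.nx u (C.N u i))) ⬝ᵥ y s(u, C.N u i) else 0) :=
      Finset.sum_congr rfl fun u _ => Finset.sum_congr rfl fun i _ => (if_pos (C.adjN u i)).symm
    rw [h6, ← h5, ← Finset.sum_add_distrib]
    refine Finset.sum_congr rfl fun u _ => ?_
    rw [← Finset.sum_add_distrib]
    refine Finset.sum_congr rfl fun v _ => ?_
    by_cases h7 : r u v
    · by_cases h8 : G.Adj u v
      · have h9 := h8.symm
        simp only [hb, h7, h8, h9, if_true, Pi.zero_apply, zero_smul, zero_add]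
        rw [Sym2.eq_swap (a := v) (b := u), ← add_dotProduct, ← add_dotProduct, hy,
          lft_pos r y' hr' h7]
        congr 1
        abel
      · have h9 : ¬ G.Adj v u := fun h => h8 h.symm
        simp [hb, h8, h9]
    · simp [hb, h7]

end system

end Pool.Agent.H66.OC
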