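import Pool.Agent.H66.OCRoots

/-!
# Orientable double covers of cubic graphs with few classes
-/

set_option autoImplicit false

namespace Pool.Agent.H66.OC

open Finset Pool.Agent.Q253.OR Pool.Agent.Q253.OD

variable {V : Type}

open scoped Classical in
/-- `n` families of directed cycles of `G`; no family traverses an edge more than once in total, and
every edge of `G` is traversed exactly once in each direction -/
def Families (G : SimpleGraph V) (n : ℕ) : Prop :=
  ∃ C : Fin n → List (Σ v : V, G.Walk v v), (∀ i, ∀ c ∈ C i, c.2.IsCycle) ∧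
    (∀ i u v, G.Adj u v → trav (C i) u v + trav (C i) v u ≤ 1) ∧
    ∀ u v, G.Adj u v → ∑ i, trav (C i) u v = 1

/-- labels of the arcs: at every vertex the three outgoing labels are the three incoming ones,
shifted by one step -/
def Labels {G : SimpleGraph V} (C : Cub G) {n : ℕ} (L : V → V → Fin n) : Prop :=
  (∀ u v, G.Adj u v → L u v ≠ L v u) ∧
    ∀ u, (∀ i, L (C.N u i) u = L u (C.N u (i + 1))) ∨ (∀ i, L (C.N u (i + 1)) u = L u (C.N u i))

open Pool.Agent.TH505.OCDC in
theorem families_of_labels [Fintype V] {G : SimpleGraph V} (C : Cub G) {n : ℕ}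
    (L : V → V → Fin n) (h : Labels C L) : Families G n := by
  classical
  obtain ⟨hne, hc⟩ := h
  have hc' : ∀ u, ∃ c : Fin 3, ∀ i, L (C.N u i) u = L u (C.N u (i + c)) := by
    intro u
    rcases hc u with h | h
    · exact ⟨1, h⟩
    · refine ⟨2, fun i => ?_⟩
      have := h (i + 2)
      have h6 : i + 2 + 1 = i := by fin_cases i <;> rfl
      rw [h6] at this
      exact this
  have key : ∀ b : Fin n, ∃ D : List (Σ v : V, G.Walk v v), (∀ c ∈ D, c.2.IsCycle) ∧
      ∀ u v, G.Adj u v → trav D u v = if b = L u v then 1 else 0 := by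
    intro b
    obtain ⟨D, h1, h2⟩ := flow_decomp (G := G) (fun u v => if G.Adj u v then
      (if b = L u v then (1 : ℤ) else 0) - (if b = L v u then 1 else 0) else 0) (fun u v => by
        by_cases h : G.Adj u v
        · have h' := h.symm
          simp only [h, h', if_true]
          ring
        · have h' : ¬ G.Adj v u := fun hh => h hh.symm
          simp [h, h']) (fun u v => by
        split_ifs <;> simp) (fun u v h => by
        by_contra hh
        simp [hh] at h) (fun u => by
        rw [C.sum_nb u (fun w => (if b = L u w then (1 : ℤ) else 0) - (if b = L w u then 1 else 0))]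
        obtain ⟨c, hc⟩ := hc' u
        simp only [hc]
        rw [Finset.sum_sub_distrib, sub_eq_zero]
        exact (Equiv.sum_comp (Equiv.addRight c)
          (fun i => if b = L u (C.N u i) then (1 : ℤ) else 0)).symm)
    refine ⟨D, h1, fun u v huv => ?_⟩
    have h3 : trav D u v = tot D u v := rfl
    rw [h3, h2]
    unfold ind
    simp only [huv, if_true]
    by_cases h4 : b = L u v
    · have h5 : b ≠ L v u := by
        rw [h4]
        exact hne u v huv
      rw [if_pos h4, if_neg h5, if_pos h4]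
      simp
    · rw [if_neg h4, if_neg h4]
      split_ifs <;> simp_all
  choose D hD1 hD2 using key
  refine ⟨D, hD1, fun i u v huv => ?_, fun u v huv => ?_⟩
  · rw [hD2 i u v huv, hD2 i v u huv.symm]
    have := hne u v huv
    split_ifs with h1 h2
    · exact absurd (h1.symm.trans h2) this
    all_goals simp
  · simp only [hD2 _ u v huv]
    simp

open Pool.Agent.TH505.OCDC in
theorem labels_of_families [Fintype V] {G : SimpleGraph V} (C : Cub G) {n : ℕ}
    (h : Families G n) : ∃ L : V → V → Fin n, Labels C L := by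
  classical
  obtain ⟨D, hD1, hD2, hD3⟩ := h
  rcases isEmpty_or_nonempty V with hV | ⟨⟨v0⟩⟩
  · exact ⟨fun u => (hV.false u).elim, fun u => (hV.false u).elim, fun u => (hV.false u).elim⟩
  have hn : ∃ i : Fin n, True := by
    by_contra hh
    push Not at hh
    have h1 := hD3 v0 _ (C.adjN v0 0)
    rw [Finset.sum_eq_zero (fun i _ => (hh i).elim)] at h1
    exact zero_ne_one h1
  obtain ⟨i0, -⟩ := hn
  have h1 : ∀ u v, ∃ a, G.Adj u v → ∀ b, trav (D b) u v = (if b = a then 1 else 0) := by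
    intro u v
    by_cases huv : G.Adj u v
    · have h2 := hD3 u v huv
      have h3 : ∃ a, trav (D a) u v ≠ 0 := by
        by_contra hh
        push Not at hh
        rw [Finset.sum_eq_zero (fun i _ => hh i)] at h2
        exact zero_ne_one h2
      obtain ⟨a, ha⟩ := h3
      refine ⟨a, fun _ b => ?_⟩
      have h4 : trav (D a) u v + ∑ i ∈ univ.erase a, trav (D i) u v = 1 := by
        rw [Finset.add_sum_erase univ (fun i => trav (D i) u v) (Finset.mem_univ a)]
        exact h2
      by_cases hb : b = a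
      · rw [if_pos hb, hb]
        omega
      · rw [if_neg hb]
        have h5 : trav (D b) u v ≤ ∑ i ∈ univ.erase a, trav (D i) u v :=
          Finset.single_le_sum (f := fun i => trav (D i) u v) (fun _ _ => Nat.zero_le _)
            (Finset.mem_erase.2 ⟨hb, Finset.mem_univ b⟩)
        omega
    · exact ⟨i0, fun h => absurd h huv⟩
  choose L hL using h1
  have hne : ∀ u v, G.Adj u v → L u v ≠ L v u := by
    intro u v huv h
    have h2 := hD2 (L u v) u v huv
    rw [hL u v huv, hL v u huv.symm, if_pos rfl, if_pos h] at h2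
    omega
  have hcons : ∀ b u, ∑ w, (trav (D b) u w : ℤ) = ∑ w, (trav (D b) w u : ℤ) := by
    intro b u
    have h4 : ∀ L : List (Σ v : V, G.Walk v v), ∑ w, (tot L u w : ℤ) = ∑ w, (tot L w u : ℤ) := by
      intro L
      induction L with
      | nil => simp [tot_nil]
      | cons c L ih =>
        have h5 : (∑ w, (dc c.2 u w : ℤ)) = ∑ w, (dc c.2 w u : ℤ) := by
          exact_mod_cast dc_closed c.2 u
        simp only [tot_cons, Nat.cast_add, Finset.sum_add_distrib, ih, h5]
    exact h4 _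
  have hz : ∀ b u w, ¬ G.Adj u w → trav (D b) u w = 0 := by
    intro b u w huw
    have h4 : ∀ L : List (Σ v : V, G.Walk v v), tot L u w = 0 := by
      intro L
      induction L with
      | nil => exact tot_nil _ _
      | cons c L ih =>
        rw [tot_cons, ih, add_zero]
        by_contra h5
        exact huw (dc_adj _ (Nat.pos_of_ne_zero h5))
    exact h4 _
  refine ⟨L, hne, fun u => ?_⟩
  have h5 := three_roots (fun i => (L u (C.N u i)).val) (fun i => (L (C.N u i) u).val)
    (fun i h => hne u _ (C.adjN u i) (Fin.ext h)) ?_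
  · rcases h5 with h5 | h5
    · exact Or.inl fun i => Fin.ext (h5 i)
    · exact Or.inr fun i => Fin.ext (h5 i)
  · funext m
    rw [Finset.sum_apply]
    simp only [rt_apply, Pi.zero_apply]
    by_cases hn : ∃ b : Fin n, m = b.val
    · obtain ⟨b, rfl⟩ := hn
      have h6 : ∀ a : Fin n, (b.val = a.val) ↔ b = a := fun a => Fin.ext_iff.symm
      simp only [h6]
      rw [Finset.sum_sub_distrib, sub_eq_zero]
      have h7 := hcons b u
      have h8 : ∀ w, (trav (D b) u w : ℤ) = if G.Adj u w then (if b = L u w then 1 else 0) else 0 := by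
        intro w
        by_cases huw : G.Adj u w
        · rw [hL u w huw b, if_pos huw]
          split_ifs <;> simp
        · rw [hz b u w huw, if_neg huw]
          simp
      have h9 : ∀ w, (trav (D b) w u : ℤ) = if G.Adj u w then (if b = L w u then 1 else 0) else 0 := by
        intro w
        by_cases huw : G.Adj u w
        · rw [hL w u huw.symm b, if_pos huw]
          split_ifs <;> simp
        · rw [hz b w u (fun h => huw h.symm), if_neg huw]
          simp
      simp only [h8, h9] at h7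
      rw [C.sum_nb u (fun w => if b = L u w then (1 : ℤ) else 0),
        C.sum_nb u (fun w => if b = L w u then (1 : ℤ) else 0)] at h7
      exact h7
    · have h6 : ∀ a : Fin n, ¬ m = a.val := fun a h => hn ⟨a, h⟩
      simp [h6]

theorem families_iff [Fintype V] {G : SimpleGraph V} (C : Cub G) (n : ℕ) :
    Families G n ↔ ∃ L : V → V → Fin n, Labels C L :=
  ⟨labels_of_families C, fun ⟨L, h⟩ => families_of_labels C L h⟩

/-! ### The colours -/

/-- the colour of an edge whose two arcs have the labels `a`, `b` -/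
def ty : Fin 5 → Fin 5 → Fin 4
  | 0, _ => 0
  | _, 0 => 0
  | 1, 2 => 1
  | 2, 1 => 1
  | 3, 4 => 1
  | 4, 3 => 1
  | 1, 3 => 2
  | 3, 1 => 2
  | 2, 4 => 2
  | 4, 2 => 2
  | 1, 4 => 3
  | 4, 1 => 3
  | 2, 3 => 3
  | 3, 2 => 3
  | _, _ => 0

/-- characters of the labels -/
def chi : Fin 4 → Fin 5 → ℤ
  | _, 0 => 0
  | 1, 1 => 1
  | 1, 2 => 1
  | 1, 3 => -1
  | 1, 4 => -1
  | 2, 1 => 1
  | 2, 2 => -1
  | 2, 3 => 1
  | 2, 4 => -1
  | 3, 1 => 1
  | 3, 2 => -1
  | 3, 3 => -1
  | 3, 4 => 1
  | _, _ => 0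

/-- the direction, for the colour `i`, of an arc with label `a` on an edge whose other arc has the
label `b` -/
def og (i : Fin 4) (a b : Fin 5) : Bool :=
  if ty a b = 0 then decide (0 < chi i a - chi i b) else decide (chi i a - chi i b < 0)

theorem ty_symm : ∀ a b : Fin 5, ty a b = ty b a := by decide

theorem og_symm : ∀ (i : Fin 4) (a b : Fin 5), i ≠ 0 → a ≠ b → ty a b ≠ i →
    og i a b = !(og i b a) := by decide

theorem og_local1 : ∀ (i : Fin 4) (p0 p1 p2 : Fin 5), i ≠ 0 → p0 ≠ p1 → p1 ≠ p2 → p2 ≠ p0 →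
    ty p0 p1 ≠ i → ty p1 p2 ≠ i →
    (og i p0 p1 = og i p1 p2 ↔ ty p2 p0 ≠ i) := by decide +kernel

theorem ty_local : ∀ (p0 p1 p2 : Fin 5), p0 ≠ p1 → p1 ≠ p2 → p2 ≠ p0 →
    (ty p0 p1 = ty p1 p2 → ty p0 p1 = 0) ∧
    ((ty p0 p1 = 0 ∧ ty p1 p2 = 0 ∧ ty p2 p0 ≠ 0) ∨ (ty p0 p1 = 0 ∧ ty p1 p2 ≠ 0 ∧ ty p2 p0 = 0) ∨
     (ty p0 p1 ≠ 0 ∧ ty p1 p2 = 0 ∧ ty p2 p0 = 0) ∨ (ty p0 p1 ≠ 0 ∧ ty p1 p2 ≠ 0 ∧ ty p2 p0 ≠ 0)) := by
  decide +kernel

/-- the label of an arc of colour `k` with the directions `x`, `y`, `z` for the colours 1, 2, 3 -/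
def lb (k : Fin 4) (x y z : Bool) : Fin 5 :=
  match k with
  | 0 => match x, y, z with
    | true, true, true => 1
    | true, false, false => 2
    | false, true, false => 3
    | false, false, true => 4
    | _, _, _ => 0
  | 1 => match y, z with
    | false, false => 1
    | true, true => 2
    | false, true => 3
    | true, false => 4
  | 2 => match x, z with
    | false, false => 1
    | false, true => 2
    | true, true => 3
    | true, false => 4
  | 3 => match x, y with
    | false, false => 1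
    | false, true => 2
    | true, false => 3
    | true, true => 4

theorem lb_ne : ∀ (k : Fin 4) (x y z : Bool), lb k x y z ≠ lb k (!x) (!y) (!z) := by decide

theorem lb_congr : ∀ (k : Fin 4) (x y z x' y' z' : Bool), (k ≠ 1 → x = x') → (k ≠ 2 → y = y') →
    (k ≠ 3 → z = z') → lb k x y z = lb k x' y' z' := by decide +kernel

/-- compatibility of the directions for one colour `i` at a vertex -/
def okd (i k0 k1 k2 : Fin 4) (x0 x1 x2 : Bool) : Bool :=
  (k0 == i || k1 == i || ((x0 == x1) == (k2 != i))) &&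
  (k1 == i || k2 == i || ((x1 == x2) == (k0 != i))) &&
  (k2 == i || k0 == i || ((x2 == x0) == (k1 != i)))

/-- the colours at a vertex -/
def okk (k0 k1 k2 : Fin 4) : Bool :=
  (k0 == 0 && k1 == 0 && k2 != 0) || (k0 == 0 && k1 != 0 && k2 == 0) ||
  (k0 != 0 && k1 == 0 && k2 == 0) ||
  (k0 != 0 && k1 != 0 && k2 != 0 && k0 != k1 && k1 != k2 && k0 != k2)

def cyc (p0 p1 p2 q0 q1 q2 : Fin 5) : Bool :=
  (q0 == p1 && q1 == p2 && q2 == p0) || (q1 == p0 && q2 == p1 && q0 == p2)

theorem lb_local : ∀ (k0 k1 k2 : Fin 4) (x0 x1 x2 y0 y1 y2 z0 z1 z2 : Bool),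
    okk k0 k1 k2 = true → okd 1 k0 k1 k2 x0 x1 x2 = true → okd 2 k0 k1 k2 y0 y1 y2 = true →
    okd 3 k0 k1 k2 z0 z1 z2 = true →
    cyc (lb k0 x0 y0 z0) (lb k1 x1 y1 z1) (lb k2 x2 y2 z2)
      (lb k0 (!x0) (!y0) (!z0)) (lb k1 (!x1) (!y1) (!z1)) (lb k2 (!x2) (!y2) (!z2)) = true := by
  decide +kernel

/-! ### Colourings and orientations -/

/-- the edges are coloured with `0, 1, 2, 3`: two edges of the same colour with a common end have
colour `0`, and every vertex is incident with no or with exactly two edges of colour `0` -/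
structure FourColoured (G : SimpleGraph V) (c : Sym2 V → Fin 4) : Prop where
  same : ∀ v a b, G.Adj v a → G.Adj v b → a ≠ b → c s(v, a) = c s(v, b) → c s(v, a) = 0
  zero : ∀ v, {w | G.Adj v w ∧ c s(v, w) = 0}.ncard = 0 ∨ {w | G.Adj v w ∧ c s(v, w) = 0}.ncard = 2

/-- `o` is an orientation of the edges whose colour is not `i`, in which the vertices not incident
with the colour `i` are sources or sinks, and the others are neither -/
structure Alternating (G : SimpleGraph V) (c : Sym2 V → Fin 4) (i : Fin 4) (o : V → V → Prop) :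
    Prop where
  anti : ∀ u v, G.Adj u v → c s(u, v) ≠ i → (o u v ↔ ¬ o v u)
  alt : ∀ v a b, G.Adj v a → G.Adj v b → a ≠ b → c s(v, a) ≠ i → c s(v, b) ≠ i →
    ((o v a ↔ o v b) ↔ ∀ w, G.Adj v w → c s(v, w) ≠ i)

open scoped Classical in
theorem card_nb [Fintype V] {G : SimpleGraph V} (C : Cub G) (v : V) (P : V → Prop) :
    {w | G.Adj v w ∧ P w}.ncard = (univ.filter fun j => P (C.N v j)).card := by
  have h : {w | G.Adj v w ∧ P w} = ((univ.filter fun j => P (C.N v j)).map ⟨C.N v, C.inj v⟩ : Finset V) := by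
    ext w
    simp only [Set.mem_ofPred_eq, Finset.coe_map, Set.mem_image, Finset.mem_coe, Finset.mem_filter,
      Finset.mem_univ, true_and, Function.Embedding.coeFn_mk, C.adj]
    constructor
    · rintro ⟨⟨i, rfl⟩, h⟩
      exact ⟨i, h, rfl⟩
    · rintro ⟨i, h, rfl⟩
      exact ⟨⟨i, rfl⟩, h⟩
  rw [h, Set.ncard_coe_finset, Finset.card_map]

theorem okk_iff : ∀ (k : Fin 3 → Fin 4), okk (k 0) (k 1) (k 2) = true ↔
    (∀ i j, i ≠ j → k i = k j → k i = 0) ∧
    ((univ.filter fun j => k j = 0).card = 0 ∨ (univ.filter fun j => k j = 0).card = 2) := by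
  decide +kernel

theorem fourColoured_iff [Fintype V] {G : SimpleGraph V} (C : Cub G) (c : Sym2 V → Fin 4) :
    FourColoured G c ↔
      ∀ v, okk (c s(v, C.N v 0)) (c s(v, C.N v 1)) (c s(v, C.N v 2)) = true := by
  classical
  constructor
  · intro h v
    rw [okk_iff (fun j => c s(v, C.N v j))]
    refine ⟨fun i j hij => h.same v _ _ (C.adjN v i) (C.adjN v j) (fun h' => hij (C.inj v h')), ?_⟩
    have := h.zero v
    rw [card_nb C v (fun w => c s(v, w) = 0)] at this
    convert this
  · intro h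
    have h' := fun v => (okk_iff (fun j => c s(v, C.N v j))).1 (h v)
    refine ⟨fun v a b ha hb hab => ?_, fun v => ?_⟩
    · obtain ⟨i, rfl⟩ := (C.adj v a).1 ha
      obtain ⟨j, rfl⟩ := (C.adj v b).1 hb
      exact (h' v).1 i j (fun h'' => hab (by rw [h'']))
    · rw [card_nb C v (fun w => c s(v, w) = 0)]
      have := (h' v).2
      convert this

/-- all positions -/
theorem fin3_all {P : Fin 3 → Prop} : (∀ i, P i) ↔ P 0 ∧ P 1 ∧ P 2 := by
  constructor
  · exact fun h => ⟨h 0, h 1, h 2⟩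
  · rintro ⟨h0, h1, h2⟩ i
    fin_cases i
    · exact h0
    · exact h1
    · exact h2

theorem nb_all {G : SimpleGraph V} (C : Cub G) (v : V) (P : V → Prop) :
    (∀ w, G.Adj v w → P w) ↔ P (C.N v 0) ∧ P (C.N v 1) ∧ P (C.N v 2) := by
  rw [← fin3_all (P := fun i => P (C.N v i))]
  constructor
  · exact fun h i => h _ (C.adjN v i)
  · intro h w hw
    obtain ⟨i, rfl⟩ := (C.adj v w).1 hw
    exact h i

open scoped Classical in
theorem okd_of_alt {G : SimpleGraph V} (C : Cub G) {c : Sym2 V → Fin 4} {i : Fin 4}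
    {o : V → V → Prop} (h : Alternating G c i o) (v : V) :
    okd i (c s(v, C.N v 0)) (c s(v, C.N v 1)) (c s(v, C.N v 2)) (decide (o v (C.N v 0)))
      (decide (o v (C.N v 1))) (decide (o v (C.N v 2))) = true := by
  have hne : ∀ a b : Fin 3, a ≠ b → C.N v a ≠ C.N v b := fun a b hab h' => hab (C.inj v h')
  have h01 := h.alt v _ _ (C.adjN v 0) (C.adjN v 1) (hne 0 1 (by decide))
  have h12 := h.alt v _ _ (C.adjN v 1) (C.adjN v 2) (hne 1 2 (by decide))
  have h20 := h.alt v _ _ (C.adjN v 2) (C.adjN v 0) (hne 2 0 (by decide))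
  rw [nb_all C v (fun w => c s(v, w) ≠ i)] at h01 h12 h20
  generalize c s(v, C.N v 0) = k0 at *
  generalize c s(v, C.N v 1) = k1 at *
  generalize c s(v, C.N v 2) = k2 at *
  unfold okd
  by_cases e0 : k0 = i <;> by_cases e1 : k1 = i <;> by_cases e2 : k2 = i <;>
    by_cases o0 : o v (C.N v 0) <;> by_cases o1 : o v (C.N v 1) <;> by_cases o2 : o v (C.N v 2) <;>
    simp_all

theorem okd_alt : ∀ (i : Fin 4) (k : Fin 3 → Fin 4) (x : Fin 3 → Bool),
    okd i (k 0) (k 1) (k 2) (x 0) (x 1) (x 2) = true → ∀ p q, p ≠ q → k p ≠ i → k q ≠ i →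
    (x p = x q ↔ (k 0 ≠ i ∧ k 1 ≠ i ∧ k 2 ≠ i)) := by decide +kernel

theorem alt_of_okd {G : SimpleGraph V} (C : Cub G) {c : Sym2 V → Fin 4} {i : Fin 4}
    {o : V → V → Bool} (h1 : ∀ u v, G.Adj u v → c s(u, v) ≠ i → o u v = !(o v u))
    (h : ∀ v, okd i (c s(v, C.N v 0)) (c s(v, C.N v 1)) (c s(v, C.N v 2)) (o v (C.N v 0))
      (o v (C.N v 1)) (o v (C.N v 2)) = true) : Alternating G c i (fun u v => o u v = true) := by
  refine ⟨fun u v huv hc => ?_, fun v a b ha hb hab => ?_⟩
  · rw [h1 u v huv hc]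
    cases o v u <;> simp
  · rw [nb_all C v (fun w => c s(v, w) ≠ i)]
    obtain ⟨p, rfl⟩ := (C.adj v a).1 ha
    obtain ⟨q, rfl⟩ := (C.adj v b).1 hb
    have hpq : p ≠ q := fun h => hab (by rw [h])
    intro hp hq
    rw [← okd_alt i (fun j => c s(v, C.N v j)) (fun j => o v (C.N v j)) (h v) p q hpq hp hq]
    exact Bool.eq_iff_iff.symm

/-- from the orientations to the labels -/
theorem labels_of_alt [Fintype V] {G : SimpleGraph V} (C : Cub G) {c : Sym2 V → Fin 4}
    (hc : FourColoured G c) {o1 o2 o3 : V → V → Prop} (h1 : Alternating G c 1 o1)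
    (h2 : Alternating G c 2 o2) (h3 : Alternating G c 3 o3) :
    ∃ L : V → V → Fin 5, Labels C L := by
  classical
  rw [fourColoured_iff C] at hc
  have hrev : ∀ u v, G.Adj u v → lb (c s(v, u)) (decide (o1 v u)) (decide (o2 v u)) (decide (o3 v u)) =
      lb (c s(u, v)) (!(decide (o1 u v))) (!(decide (o2 u v))) (!(decide (o3 u v))) := by
    intro u v huv
    rw [Sym2.eq_swap (a := v) (b := u)]
    have hkey : ∀ (i : Fin 4) (o : V → V → Prop), Alternating G c i o → c s(u, v) ≠ i →
        decide (o v u) = !(decide (o u v)) := by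
      intro i o ho hi
      have := ho.anti u v huv hi
      by_cases hh : o v u <;> by_cases hh' : o u v <;> simp_all
    exact lb_congr _ _ _ _ _ _ _ (fun h => hkey 1 o1 h1 h) (fun h => hkey 2 o2 h2 h)
      (fun h => hkey 3 o3 h3 h)
  refine ⟨fun u v => lb (c s(u, v)) (decide (o1 u v)) (decide (o2 u v)) (decide (o3 u v)),
    fun u v huv => ?_, fun u => ?_⟩
  · show _ ≠ lb (c s(v, u)) (decide (o1 v u)) (decide (o2 v u)) (decide (o3 v u))
    rw [hrev u v huv]
    exact lb_ne _ _ _ _
  · have h := lb_local _ _ _ _ _ _ _ _ _ _ _ _ (hc u) (okd_of_alt C h1 u) (okd_of_alt C h2 u)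
      (okd_of_alt C h3 u)
    rw [← hrev u _ (C.adjN u 0), ← hrev u _ (C.adjN u 1), ← hrev u _ (C.adjN u 2)] at h
    unfold cyc at h
    simp only [Bool.or_eq_true, Bool.and_eq_true, beq_iff_eq] at h
    rcases h with ⟨⟨a, b⟩, d⟩ | ⟨⟨a, b⟩, d⟩
    · left
      rw [fin3_all]
      exact ⟨a, b, d⟩
    · right
      rw [fin3_all]
      exact ⟨a, b, d⟩

theorem lab_local : ∀ (p0 p1 p2 q0 q1 q2 : Fin 5), p0 ≠ q0 → p1 ≠ q1 → p2 ≠ q2 →
    ((q0 = p1 ∧ q1 = p2 ∧ q2 = p0) ∨ (q1 = p0 ∧ q2 = p1 ∧ q0 = p2)) →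
    okk (ty p0 q0) (ty p1 q1) (ty p2 q2) = true ∧ ∀ i, i ≠ 0 →
      okd i (ty p0 q0) (ty p1 q1) (ty p2 q2) (og i p0 q0) (og i p1 q1) (og i p2 q2) = true := by
  decide +kernel

/-- from the labels to the colours and orientations -/
theorem alt_of_labels [Fintype V] {G : SimpleGraph V} (C : Cub G) {L : V → V → Fin 5}
    (hL : Labels C L) : ∃ c : Sym2 V → Fin 4, FourColoured G c ∧
      ∀ i, i ≠ 0 → ∃ o, Alternating G c i o := by
  classical
  obtain ⟨hne, hcyc⟩ := hL
  let c : Sym2 V → Fin 4 := Sym2.lift ⟨fun u v => ty (L u v) (L v u), fun u v => ty_symm _ _⟩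
  have hcu : ∀ u v, c s(u, v) = ty (L u v) (L v u) := fun u v => rfl
  have hloc : ∀ u, okk (c s(u, C.N u 0)) (c s(u, C.N u 1)) (c s(u, C.N u 2)) = true ∧
      ∀ i, i ≠ 0 → okd i (c s(u, C.N u 0)) (c s(u, C.N u 1)) (c s(u, C.N u 2))
        (og i (L u (C.N u 0)) (L (C.N u 0) u)) (og i (L u (C.N u 1)) (L (C.N u 1) u))
        (og i (L u (C.N u 2)) (L (C.N u 2) u)) = true := by
    intro u
    simp only [hcu]
    refine lab_local _ _ _ _ _ _ (hne _ _ (C.adjN u 0)) (hne _ _ (C.adjN u 1))
      (hne _ _ (C.adjN u 2)) ?_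
    rcases hcyc u with h | h
    · exact Or.inl ⟨h 0, h 1, h 2⟩
    · exact Or.inr ⟨h 0, h 1, h 2⟩
  refine ⟨c, (fourColoured_iff C c).2 fun v => (hloc v).1, fun i hi => ?_⟩
  refine ⟨_, alt_of_okd C (o := fun u v => og i (L u v) (L v u)) (fun u v huv hc => ?_)
    fun v => (hloc v).2 i hi⟩
  exact og_symm i _ _ hi (hne u v huv) hc

theorem five_iff [Fintype V] {G : SimpleGraph V} (C : Cub G) :
    Families G 5 ↔ ∃ c : Sym2 V → Fin 4, FourColoured G c ∧
      ∀ i, i ≠ 0 → ∃ o, Alternating G c i o := by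
  rw [families_iff C]
  constructor
  · rintro ⟨L, hL⟩
    exact alt_of_labels C hL
  · rintro ⟨c, hc, h⟩
    obtain ⟨o1, h1⟩ := h 1 (by decide)
    obtain ⟨o2, h2⟩ := h 2 (by decide)
    obtain ⟨o3, h3⟩ := h 3 (by decide)
    exact labels_of_alt C hc h1 h2 h3

end Pool.Agent.H66.OC
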