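import Pool.Agent.H66.OCFive

/-!
# The parity criterion for alternating orientations
-/

set_option autoImplicit false

namespace Pool.Agent.H66.OC

open Finset

variable {V : Type}

/-- the edges at `v` do not have the colour `i` -/
def Full (G : SimpleGraph V) (c : Sym2 V → Fin 4) (i : Fin 4) (v : V) : Prop :=
  ∀ w, G.Adj v w → c s(v, w) ≠ i

/-- the edge sets of systems of disjoint circuits avoiding the colour `i` -/
structure TwoReg (G : SimpleGraph V) (c : Sym2 V → Fin 4) (i : Fin 4) (Z : Set (Sym2 V)) :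
    Prop where
  sub : ∀ u v, s(u, v) ∈ Z → G.Adj u v ∧ c s(u, v) ≠ i
  deg : ∀ v, {w | s(v, w) ∈ Z}.ncard = 0 ∨ {w | s(v, w) ∈ Z}.ncard = 2

open scoped Classical in
/-- counting the arcs of `Z` in a direction -/
theorem sum_dir [Fintype V] {G : SimpleGraph V} {c : Sym2 V → Fin 4} {i : Fin 4}
    {Z : Set (Sym2 V)} (hZ : TwoReg G c i Z) (q : V → V → Prop)
    (hq : ∀ u v, s(u, v) ∈ Z → (q u v ↔ ¬ q v u)) :
    ∑ v, ∑ w, (if s(v, w) ∈ Z ∧ q v w then 1 else 0) = {v | ∃ w, s(v, w) ∈ Z}.ncard := by
  have h1 : ∑ v, ∑ w, (if s(v, w) ∈ Z ∧ q v w then 1 else 0) =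
      ∑ v, ∑ w, (if s(v, w) ∈ Z ∧ q w v then 1 else 0) := by
    rw [Finset.sum_comm]
    refine Finset.sum_congr rfl fun u _ => Finset.sum_congr rfl fun v _ => ?_
    rw [Sym2.eq_swap]
  have h2 : ∑ v, ∑ w, (if s(v, w) ∈ Z ∧ q v w then 1 else 0) +
      ∑ v, ∑ w, (if s(v, w) ∈ Z ∧ q w v then 1 else 0) =
      ∑ v, ∑ w, (if s(v, w) ∈ Z then 1 else 0) := by
    rw [← Finset.sum_add_distrib]
    refine Finset.sum_congr rfl fun u _ => ?_
    rw [← Finset.sum_add_distrib]
    refine Finset.sum_congr rfl fun v _ => ?_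
    by_cases h : s(u, v) ∈ Z
    · have := hq u v h
      by_cases h3 : q v u <;> simp [h, h3, this]
    · simp [h]
  have h3 : ∑ v, ∑ w, (if s(v, w) ∈ Z then 1 else 0) =
      ∑ v, 2 * (if ∃ w, s(v, w) ∈ Z then 1 else 0) := by
    refine Finset.sum_congr rfl fun v _ => ?_
    have h4 : ∑ w, (if s(v, w) ∈ Z then 1 else 0) = {w | s(v, w) ∈ Z}.ncard := by
      rw [Finset.sum_boole, Set.ncard_eq_toFinset_card']
      simp
    rw [h4]
    by_cases h5 : ∃ w, s(v, w) ∈ Z
    · rw [if_pos h5]
      rcases hZ.deg v with h6 | h6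
      · rw [Set.ncard_eq_zero] at h6
        obtain ⟨w, hw⟩ := h5
        have : w ∈ {w | s(v, w) ∈ Z} := hw
        rw [h6] at this
        exact absurd this (Set.notMem_empty w)
      · omega
    · rw [if_neg h5]
      push Not at h5
      have : {w | s(v, w) ∈ Z} = ∅ := by
        ext w
        simp [h5 w]
      rw [this]
      simp
  have h4 : ∑ v, 2 * (if ∃ w, s(v, w) ∈ Z then 1 else 0) = 2 * {v | ∃ w, s(v, w) ∈ Z}.ncard := by
    rw [← Finset.mul_sum, Finset.sum_boole, Set.ncard_eq_toFinset_card']
    simp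
  omega

/-- an alternating orientation gives the parity condition -/
theorem even_of_alt [Fintype V] {G : SimpleGraph V} {c : Sym2 V → Fin 4} {i : Fin 4}
    {o : V → V → Prop} (ho : Alternating G c i o) {Z : Set (Sym2 V)} (hZ : TwoReg G c i Z) :
    Even {v | (∃ w, s(v, w) ∈ Z) ∧ Full G c i v}.ncard := by
  classical
  have h1 := sum_dir hZ o (fun u v h => ho.anti u v (hZ.sub u v h).1 (hZ.sub u v h).2)
  have h2 : ∀ v, ∑ w, (if s(v, w) ∈ Z ∧ o v w then (1 : ZMod 2) else 0) =
      if (∃ w, s(v, w) ∈ Z) ∧ ¬ Full G c i v then 1 else 0 := by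
    intro v
    rcases hZ.deg v with h3 | h3
    · rw [Set.ncard_eq_zero] at h3
      have h4 : ∀ w, ¬ s(v, w) ∈ Z := fun w hw => by
        have : w ∈ {w | s(v, w) ∈ Z} := hw
        rw [h3] at this
        exact absurd this (Set.notMem_empty w)
      simp [h4]
    · obtain ⟨a, b, hab, h4⟩ := Set.ncard_eq_two.1 h3
      have h5 : ∀ w, s(v, w) ∈ Z ↔ w = a ∨ w = b := by
        intro w
        have : w ∈ {w | s(v, w) ∈ Z} ↔ w ∈ ({a, b} : Set V) := by rw [h4]
        simpa using this
      have ha := (h5 a).2 (Or.inl rfl)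
      have hb := (h5 b).2 (Or.inr rfl)
      have h6 := ho.alt v a b (hZ.sub v a ha).1 (hZ.sub v b hb).1 hab (hZ.sub v a ha).2
        (hZ.sub v b hb).2
      have h7 : ∑ w, (if s(v, w) ∈ Z ∧ o v w then (1 : ZMod 2) else 0) =
          (if o v a then 1 else 0) + (if o v b then 1 else 0) := by
        have h8 : ∀ w, (if s(v, w) ∈ Z ∧ o v w then (1 : ZMod 2) else 0) =
            (if w = a then (if o v a then 1 else 0) else 0) +
            (if w = b then (if o v b then 1 else 0) else 0) := by
          intro w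
          rw [h5 w]
          by_cases h9 : w = a
          · subst h9
            simp [hab]
          · by_cases h10 : w = b
            · subst h10
              simp [Ne.symm hab]
            · simp [h9, h10]
        simp only [h8]
        rw [Finset.sum_add_distrib]
        simp
      rw [h7]
      have h8 : ∃ w, s(v, w) ∈ Z := ⟨a, ha⟩
      have h9 : Full G c i v ↔ (o v a ↔ o v b) := h6.symm
      rw [h9]
      by_cases h10 : o v a <;> by_cases h11 : o v b <;> (simp [h8, h10, h11]; try decide)
  have h3 : (({v | ∃ w, s(v, w) ∈ Z}.ncard : ℕ) : ZMod 2) =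
      ∑ v, if (∃ w, s(v, w) ∈ Z) ∧ ¬ Full G c i v then 1 else 0 := by
    rw [← h1]
    push_cast
    exact Finset.sum_congr rfl fun v _ => h2 v
  have h4 : (({v | ∃ w, s(v, w) ∈ Z}.ncard : ℕ) : ZMod 2) =
      ∑ v, if (∃ w, s(v, w) ∈ Z) then (1 : ZMod 2) else 0 := by
    rw [Finset.sum_boole, Set.ncard_eq_toFinset_card']
    simp
  rw [even_iff]
  have h5 : ∑ v, (if (∃ w, s(v, w) ∈ Z) then (1 : ZMod 2) else 0) =
      ∑ v, (if (∃ w, s(v, w) ∈ Z) ∧ Full G c i v then (1 : ZMod 2) else 0) +
      ∑ v, (if (∃ w, s(v, w) ∈ Z) ∧ ¬ Full G c i v then 1 else 0) := by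
    rw [← Finset.sum_add_distrib]
    refine Finset.sum_congr rfl fun v _ => ?_
    by_cases h6 : ∃ w, s(v, w) ∈ Z <;> by_cases h7 : Full G c i v <;> simp [h6, h7]
  rw [← h4, h3] at h5
  exact (left_eq_add.1 (h5.trans (add_comm _ _)))

/-! ### Duality -/

section dual

variable [Fintype V] {G : SimpleGraph V} (C : Cub G) (c : Sym2 V → Fin 4) (i : Fin 4)

/-- the equation number `j` at the vertex `v` is present -/
def Pr (v : V) (j : Fin 3) : Prop := c s(v, C.N v j) ≠ i ∧ c s(v, C.N v (j + 1)) ≠ i

instance (v : V) (j : Fin 3) : Decidable (Pr C c i v j) := by unfold Pr; infer_instance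

/-- the left hand sides of the equations -/
def eqMap : (Sym2 V → ZMod 2) →ₗ[ZMod 2] (V → Fin 3 → ZMod 2) where
  toFun x v j := if Pr C c i v j then x s(v, C.N v j) + x s(v, C.N v (j + 1)) else 0
  map_add' x y := by
    funext v j
    simp only [Pi.add_apply]
    split_ifs
    · abel
    · simp
  map_smul' a x := by
    funext v j
    simp only [Pi.smul_apply, RingHom.id_apply, smul_eq_mul]
    split_ifs
    · ring
    · simp

omit [Fintype V] in
theorem dual_repr3 [Fintype V] (φ : Module.Dual (ZMod 2) (V → Fin 3 → ZMod 2)) :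
    ∃ l : V → Fin 3 → ZMod 2, ∀ f, φ f = ∑ v, ∑ j, f v j * l v j := by
  classical
  refine ⟨fun v j => φ (Pi.single v (Pi.single j 1)), fun f => ?_⟩
  conv_lhs => rw [← Finset.univ_sum_single f, map_sum]
  refine Finset.sum_congr rfl fun v _ => ?_
  have h2 : f v = ∑ j, f v j • (Pi.single j 1 : Fin 3 → ZMod 2) := by
    funext j
    simp [Finset.sum_apply, Pi.single_apply]
  conv_lhs => rw [h2]
  have h3 : Pi.single (M := fun _ => Fin 3 → ZMod 2) v (∑ j, f v j • (Pi.single j 1 : Fin 3 → ZMod 2)) =
      ∑ j, f v j • Pi.single v (Pi.single j 1) := by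
    have := map_sum (LinearMap.single (ZMod 2) (fun _ : V => Fin 3 → ZMod 2) v)
      (fun j => f v j • (Pi.single j 1 : Fin 3 → ZMod 2)) univ
    simp only [map_smul] at this
    exact this
  rw [h3, map_sum]
  simp only [map_smul, smul_eq_mul]

/-- coefficients -/
def zt (l : V → Fin 3 → ZMod 2) (v : V) (j : Fin 3) : ZMod 2 :=
  (if Pr C c i v j then l v j else 0) + (if Pr C c i v (j + 2) then l v (j + 2) else 0)

theorem sum_zt (l : V → Fin 3 → ZMod 2) (g : V → Fin 3 → ZMod 2) (v : V) :
    ∑ j, (if Pr C c i v j then g v j + g v (j + 1) else 0) * l v j =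
      ∑ j, zt C c i l v j * g v j := by
  have h : ∀ j : Fin 3, j + 1 + 2 = j := by decide
  unfold zt
  have h1 : ∑ j, ((if Pr C c i v j then l v j else 0) +
      (if Pr C c i v (j + 2) then l v (j + 2) else 0)) * g v j =
      ∑ j, (if Pr C c i v j then l v j else 0) * g v j +
      ∑ j, (if Pr C c i v (j + 2) then l v (j + 2) else 0) * g v j := by
    rw [← Finset.sum_add_distrib]
    exact Finset.sum_congr rfl fun j _ => add_mul _ _ _
  rw [h1, ← Equiv.sum_comp (Equiv.addRight (1 : Fin 3))
    (fun j => (if Pr C c i v (j + 2) then l v (j + 2) else 0) * g v j), ← Finset.sum_add_distrib]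
  refine Finset.sum_congr rfl fun j _ => ?_
  simp only [Equiv.coe_addRight, h]
  split_ifs <;> ring

open scoped Classical in
/-- the coefficients as a function on pairs of vertices -/
noncomputable def zz (l : V → Fin 3 → ZMod 2) (u w : V) : ZMod 2 :=
  if h : G.Adj u w then zt C c i l u (C.pos u w h) else 0

theorem zz_N (l : V → Fin 3 → ZMod 2) (v : V) (j : Fin 3) :
    zz C c i l v (C.N v j) = zt C c i l v j := by
  unfold zz
  rw [dif_pos (C.adjN v j), C.pos_N]

theorem sum_zz (l : V → Fin 3 → ZMod 2) (v : V) (f : V → ZMod 2) :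
    ∑ j, zt C c i l v j * f (C.N v j) = ∑ w, zz C c i l v w * f w := by
  classical
  have h := C.sum_nb v (fun w => zz C c i l v w * f w)
  have h2 : ∑ w, zz C c i l v w * f w = ∑ w, (if G.Adj v w then zz C c i l v w * f w else 0) := by
    refine Finset.sum_congr rfl fun w _ => ?_
    by_cases h3 : G.Adj v w
    · rw [if_pos h3]
    · rw [if_neg h3]
      unfold zz
      rw [dif_neg h3, zero_mul]
  rw [h2, h]
  exact Finset.sum_congr rfl fun j _ => by rw [zz_N]

theorem zt_col (l : V → Fin 3 → ZMod 2) (v : V) (j : Fin 3) (h : c s(v, C.N v j) = i) :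
    zt C c i l v j = 0 := by
  have h1 : ¬ Pr C c i v j := fun h' => h'.1 h
  have h2 : ¬ Pr C c i v (j + 2) := fun h' => h'.2 (by
    have h3 : ∀ j : Fin 3, j + 2 + 1 = j := by decide
    rw [h3 j]
    exact h)
  unfold zt
  rw [if_neg h1, if_neg h2, add_zero]

theorem zt_sum (l : V → Fin 3 → ZMod 2) (v : V) : ∑ j, zt C c i l v j = 0 := by
  have h := sum_zt C c i l (fun _ _ => 1) v
  have h2 : (1 : ZMod 2) + 1 = 0 := by decide
  simp only [h2, mul_one] at h
  rw [← h]
  simp

theorem three_par : ∀ f : Fin 3 → ZMod 2, ∑ j, f j = 0 →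
    (univ.filter fun j => f j = 1).card = 0 ∨ (univ.filter fun j => f j = 1).card = 2 := by
  decide +kernel

/-- local computation at a vertex incident with the colour `i` -/
theorem local_not_full : ∀ (i : Fin 4) (k : Fin 3 → Fin 4) (l : Fin 3 → ZMod 2), i ≠ 0 →
    (∀ p q, p ≠ q → k p = k q → k p = 0) → (∃ j, k j = i) →
    ∑ j, (if k j ≠ i ∧ k (j + 1) ≠ i then l j else 0) =
      if ∃ j, (if k j ≠ i ∧ k (j + 1) ≠ i then l j else 0) +
        (if k (j + 2) ≠ i ∧ k (j + 2 + 1) ≠ i then l (j + 2) else 0) = 1 then 1 else 0 := by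
  decide +kernel

include C in
open scoped Classical in
theorem alt_of_even (r : V → V → Prop) (hr : ∀ u v, u ≠ v → (r u v ↔ ¬ r v u))
    (hi : i ≠ 0) (hc : FourColoured G c)
    (h : ∀ Z, TwoReg G c i Z → Even {v | (∃ w, s(v, w) ∈ Z) ∧ Full G c i v}.ncard) :
    ∃ o, Alternating G c i o := by
  set R : V → V → ZMod 2 := fun v w => if r v w then 1 else 0 with hR
  set d : V → ZMod 2 := fun v => if Full G c i v then 0 else 1 with hd
  set b : V → Fin 3 → ZMod 2 := fun v j =>
    if Pr C c i v j then R v (C.N v j) + R v (C.N v (j + 1)) + d v else 0 with hb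
  by_cases hmem : b ∈ LinearMap.range (eqMap C c i)
  · obtain ⟨x, hx⟩ := hmem
    have h1 : ∀ v j, Pr C c i v j → (x s(v, C.N v j) + R v (C.N v j)) +
        (x s(v, C.N v (j + 1)) + R v (C.N v (j + 1))) = d v := by
      intro v j hj
      have h2 := congrFun (congrFun hx v) j
      simp only [eqMap, LinearMap.coe_mk, AddHom.coe_mk, hb, hj, if_true] at h2
      have key : ∀ p q r s d : ZMod 2, p + q = r + s + d → (p + r) + (q + s) = d := by decide
      exact key _ _ _ _ _ h2
    have h2 : ∀ v p q, p ≠ q → c s(v, C.N v p) ≠ i → c s(v, C.N v q) ≠ i →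
        (x s(v, C.N v p) + R v (C.N v p)) + (x s(v, C.N v q) + R v (C.N v q)) = d v := by
      intro v p q hpq hp hq
      have h3 : ∀ p q : Fin 3, p ≠ q → q = p + 1 ∨ p = q + 1 := by decide
      rcases h3 p q hpq with h4 | h4
      · subst h4
        exact h1 v p ⟨hp, hq⟩
      · subst h4
        rw [add_comm]
        exact h1 v q ⟨hq, hp⟩
    refine ⟨fun u v => x s(u, v) + R u v = 1, fun u v huv _ => ?_, fun v a e ha he hae hca hce => ?_⟩
    · rw [Sym2.eq_swap (a := v) (b := u)]
      have h3 := hr u v huv.ne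
      simp only [hR]
      have key : ∀ t : ZMod 2, (t + 1 = 1 ↔ ¬ t + 0 = 1) ∧ (t + 0 = 1 ↔ ¬ t + 1 = 1) := by decide
      by_cases h4 : r u v
      · have h5 := h3.1 h4
        rw [if_pos h4, if_neg h5]
        exact (key _).1
      · have h5 : r v u := by
          by_contra h6
          exact h4 (h3.2 h6)
        rw [if_neg h4, if_pos h5]
        exact (key _).2
    · obtain ⟨p, rfl⟩ := (C.adj v a).1 ha
      obtain ⟨q, rfl⟩ := (C.adj v e).1 he
      have h3 := h2 v p q (fun h => hae (by rw [h])) hca hce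
      have key : ∀ p q : ZMod 2, p + q = 0 → (p = 1 ↔ q = 1) := by decide
      have key2 : ∀ p q : ZMod 2, p + q = 1 → ¬ (p = 1 ↔ q = 1) := by decide
      by_cases h4 : Full G c i v
      · rw [hd] at h3
        simp only [h4, if_true] at h3
        exact iff_of_true (key _ _ h3) h4
      · rw [hd] at h3
        simp only [h4, if_false] at h3
        exact iff_of_false (key2 _ _ h3) h4
  · exfalso
    obtain ⟨φ, h1, h2⟩ := Submodule.exists_le_ker_of_notMem hmem
    obtain ⟨l, hl⟩ := dual_repr3 φ
    have h3 : ∀ x : Sym2 V → ZMod 2, ∑ v, ∑ w, zz C c i l v w * x s(v, w) = 0 := by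
      intro x
      have h4 : φ (eqMap C c i x) = 0 := h2 ⟨_, rfl⟩
      rw [hl] at h4
      rw [← h4]
      refine Finset.sum_congr rfl fun v _ => ?_
      rw [← sum_zz C c i l v (fun w => x s(v, w))]
      exact (sum_zt C c i l (fun v j => x s(v, C.N v j)) v).symm
    have hz0 : ∀ v w, ¬ G.Adj v w → zz C c i l v w = 0 := by
      intro v w h4
      unfold zz
      rw [dif_neg h4]
    have hsym : ∀ u w, zz C c i l u w = zz C c i l w u := by
      intro u w
      by_cases huw : G.Adj u w
      · have h4 := h3 (fun e => if e = s(u, w) then 1 else 0)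
        have h5 : ∀ v t, zz C c i l v t * (if s(v, t) = s(u, w) then 1 else 0) =
            (if v = u then (if t = w then zz C c i l u w else 0) else 0) +
            (if v = w then (if t = u then zz C c i l w u else 0) else 0) := by
          intro v t
          have hne := huw.ne
          by_cases a1 : v = u <;> by_cases a2 : t = w <;> by_cases a3 : v = w <;>
            by_cases a4 : t = u <;> simp_all
        simp only [h5, Finset.sum_add_distrib] at h4
        simp at h4
        have key : ∀ p q : ZMod 2, p + q = 0 → p = q := by decide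
        exact key _ _ h4
      · rw [hz0 u w huw, hz0 w u (fun h => huw h.symm)]
    set Z : Set (Sym2 V) := {e | ∃ u w, e = s(u, w) ∧ zz C c i l u w = 1} with hZdef
    have hmemZ : ∀ u w, s(u, w) ∈ Z ↔ zz C c i l u w = 1 := by
      intro u w
      constructor
      · rintro ⟨u', w', h4, h5⟩
        rw [Sym2.eq_iff] at h4
        rcases h4 with ⟨rfl, rfl⟩ | ⟨rfl, rfl⟩
        · exact h5
        · rw [hsym]
          exact h5
      · exact fun h4 => ⟨u, w, rfl, h4⟩
    have hadjZ : ∀ u w, s(u, w) ∈ Z → G.Adj u w := by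
      intro u w h4
      rw [hmemZ] at h4
      by_contra h5
      rw [hz0 u w h5] at h4
      exact zero_ne_one h4
    have hZ : TwoReg G c i Z := by
      refine ⟨fun u w h4 => ⟨hadjZ u w h4, fun h5 => ?_⟩, fun v => ?_⟩
      · obtain ⟨j, rfl⟩ := (C.adj u w).1 (hadjZ u w h4)
        rw [hmemZ, zz_N, zt_col C c i l u j h5] at h4
        exact zero_ne_one h4
      · have h4 : {w | s(v, w) ∈ Z} = {w | G.Adj v w ∧ zz C c i l v w = 1} := by
          ext w
          constructor
          · exact fun h5 => ⟨hadjZ v w h5, (hmemZ v w).1 h5⟩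
          · exact fun h5 => (hmemZ v w).2 h5.2
        rw [h4, card_nb C v (fun w => zz C c i l v w = 1)]
        simp only [zz_N]
        have := three_par (fun j => zt C c i l v j) (zt_sum C c i l v)
        convert this
    have hfin : φ b = ∑ v, (if (∃ w, s(v, w) ∈ Z) then (1 : ZMod 2) else 0) +
        ∑ v, (if (∃ w, s(v, w) ∈ Z) ∧ ¬ Full G c i v then 1 else 0) := by
      rw [hl]
      have h4 : ∀ v, ∑ j, b v j * l v j = ∑ w, zz C c i l v w * R v w +
          (if (∃ w, s(v, w) ∈ Z) ∧ ¬ Full G c i v then 1 else 0) := by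
        intro v
        have h5 : ∑ j, b v j * l v j =
            ∑ j, (if Pr C c i v j then R v (C.N v j) + R v (C.N v (j + 1)) else 0) * l v j +
            d v * ∑ j, (if Pr C c i v j then l v j else 0) := by
          rw [Finset.mul_sum, ← Finset.sum_add_distrib]
          refine Finset.sum_congr rfl fun j _ => ?_
          simp only [hb]
          split_ifs <;> ring
        rw [h5, sum_zt C c i l (fun v j => R v (C.N v j)) v, sum_zz C c i l v (fun w => R v w)]
        congr 1
        by_cases h6 : Full G c i v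
        · simp [hd, h6]
        · have h7 : ∃ j, c s(v, C.N v j) = i := by
            unfold Full at h6
            push Not at h6
            obtain ⟨w, hw, hw2⟩ := h6
            obtain ⟨j, rfl⟩ := (C.adj v w).1 hw
            exact ⟨j, hw2⟩
          have h8 := local_not_full i (fun j => c s(v, C.N v j)) (l v) hi (fun p q hpq =>
            hc.same v _ _ (C.adjN v p) (C.adjN v q) (fun h => hpq (C.inj v h))) h7
          have h9 : (∃ w, s(v, w) ∈ Z) ↔ ∃ j, zt C c i l v j = 1 := by
            constructor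
            · rintro ⟨w, hw⟩
              obtain ⟨j, rfl⟩ := (C.adj v w).1 (hadjZ v w hw)
              rw [hmemZ, zz_N] at hw
              exact ⟨j, hw⟩
            · rintro ⟨j, hj⟩
              refine ⟨C.N v j, ?_⟩
              rw [hmemZ, zz_N]
              exact hj
          simp only [hd, h6, if_false, one_mul, not_false_eq_true, and_true]
          exact Eq.trans h8 (if_congr h9.symm rfl rfl)
      simp only [h4, Finset.sum_add_distrib]
      congr 1
      have h5 := sum_dir hZ r (fun u v h => hr u v (hadjZ u v h).ne)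
      have h6 : ∑ v, (if (∃ w, s(v, w) ∈ Z) then (1 : ZMod 2) else 0) =
          (({v | ∃ w, s(v, w) ∈ Z}.ncard : ℕ) : ZMod 2) := by
        rw [Finset.sum_boole, Set.ncard_eq_toFinset_card']
        simp
      rw [h6, ← h5]
      push_cast
      refine Finset.sum_congr rfl fun v _ => Finset.sum_congr rfl fun w _ => ?_
      have h7 := hmemZ v w
      have key : ∀ p : ZMod 2, p ≠ 1 → p = 0 := by decide
      by_cases h8 : s(v, w) ∈ Z
      · simp only [hR, h8, true_and]
        rw [h7.1 h8, one_mul]
      · have h9 := key _ (fun h => h8 (h7.2 h))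
        simp [h8, h9]
    apply h1
    have h4 := h Z hZ
    rw [even_iff] at h4
    rw [hfin]
    have h5 : ∑ v, (if (∃ w, s(v, w) ∈ Z) then (1 : ZMod 2) else 0) =
        ∑ v, (if (∃ w, s(v, w) ∈ Z) ∧ Full G c i v then (1 : ZMod 2) else 0) +
        ∑ v, (if (∃ w, s(v, w) ∈ Z) ∧ ¬ Full G c i v then 1 else 0) := by
      rw [← Finset.sum_add_distrib]
      refine Finset.sum_congr rfl fun v _ => ?_
      by_cases h6 : ∃ w, s(v, w) ∈ Z <;> by_cases h7 : Full G c i v <;> simp [h6, h7]
    rw [h5, h4, zero_add]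
    have key : ∀ p : ZMod 2, p + p = 0 := by decide
    exact key _

end dual

/-! ### Circuits -/

open scoped Classical in
/-- from systems of circuits to single circuits -/
theorem circ_of_even [Fintype V] {G : SimpleGraph V} {c : Sym2 V → Fin 4} {i : Fin 4}
    (h : ∀ Z, TwoReg G c i Z → Even {v | (∃ w, s(v, w) ∈ Z) ∧ Full G c i v}.ncard)
    (x : V) (p : G.Walk x x) (hp : p.IsCycle) (hc : ∀ e ∈ p.edges, c e ≠ i) :
    Even {v | v ∈ p.support ∧ Full G c i v}.ncard := by
  have h1 : ∀ v, {w | s(v, w) ∈ {e | e ∈ p.edges}} = p.toSubgraph.neighborSet v := by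
    intro v
    ext w
    simp only [Set.mem_ofPred_eq, SimpleGraph.Subgraph.mem_neighborSet]
    rw [← SimpleGraph.Subgraph.mem_edgeSet, SimpleGraph.Walk.mem_edges_toSubgraph]
  have h2 : ∀ v, v ∈ p.support ↔ ∃ w, s(v, w) ∈ {e | e ∈ p.edges} := by
    intro v
    constructor
    · intro hv
      have h3 := hp.ncard_neighborSet_toSubgraph_eq_two hv
      rw [← h1] at h3
      have h4 : {w | s(v, w) ∈ {e | e ∈ p.edges}}.Nonempty := by
        rw [← Set.ncard_pos]
        omega
      exact h4
    · rintro ⟨w, hw⟩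
      exact p.fst_mem_support_of_mem_edges hw
  have h3 := h {e | e ∈ p.edges} ⟨fun u v huv => ⟨p.adj_of_mem_edges huv, hc _ huv⟩, fun v => ?_⟩
  · simp only [h2]
    exact h3
  · by_cases hv : v ∈ p.support
    · right
      rw [h1]
      exact hp.ncard_neighborSet_toSubgraph_eq_two hv
    · left
      rw [Set.ncard_eq_zero]
      ext w
      simp only [Set.mem_ofPred_eq, Set.mem_empty_iff_false, iff_false]
      exact fun hw => hv (p.fst_mem_support_of_mem_edges hw)

open scoped Classical in
/-- from single circuits to systems of circuits -/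
theorem even_of_circ [Fintype V] {G : SimpleGraph V} {c : Sym2 V → Fin 4} {i : Fin 4}
    (h : ∀ (x : V) (p : G.Walk x x), p.IsCycle → (∀ e ∈ p.edges, c e ≠ i) →
      Even {v | v ∈ p.support ∧ Full G c i v}.ncard) :
    ∀ (n : ℕ) (Z : Set (Sym2 V)), Z.ncard = n → TwoReg G c i Z →
      Even {v | (∃ w, s(v, w) ∈ Z) ∧ Full G c i v}.ncard := by
  intro n
  induction n using Nat.strong_induction_on with
  | _ n ih =>
    intro Z hn hZ
    by_cases hne : ∃ u v, s(u, v) ∈ Z
    · -- a circuit in `Z`
      obtain ⟨x, p, hp, hd⟩ := Pool.Agent.TH505.OCDC.exists_cycle (G := G) (fun u v => s(u, v) ∈ Z)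
        (fun u v huv => (hZ.sub u v huv).1) hne (fun u v huv => by
          rcases hZ.deg u with h1 | h1
          · rw [Set.ncard_eq_zero] at h1
            have : v ∈ {w | s(u, w) ∈ Z} := huv
            rw [h1] at this
            exact absurd this (Set.notMem_empty v)
          · obtain ⟨w, hw, hwv⟩ := Set.exists_ne_of_one_lt_ncard (by omega : 1 < {w | s(u, w) ∈ Z}.ncard) v
            refine ⟨w, hwv, ?_⟩
            rw [Sym2.eq_swap]
            exact hw)
      have hpe : ∀ e ∈ p.edges, e ∈ Z := by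
        intro e he
        rw [SimpleGraph.Walk.edges, List.mem_map] at he
        obtain ⟨d, hd1, rfl⟩ := he
        exact hd d hd1
      have h1 : ∀ v, {w | s(v, w) ∈ p.edges} = p.toSubgraph.neighborSet v := by
        intro v
        ext w
        simp only [Set.mem_ofPred_eq, SimpleGraph.Subgraph.mem_neighborSet]
        rw [← SimpleGraph.Subgraph.mem_edgeSet, SimpleGraph.Walk.mem_edges_toSubgraph]
      -- all edges of `Z` at a vertex of `p` belong to `p`
      have h2 : ∀ v, v ∈ p.support → {w | s(v, w) ∈ p.edges} = {w | s(v, w) ∈ Z} := by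
        intro v hv
        have h3 := hp.ncard_neighborSet_toSubgraph_eq_two hv
        rw [← h1] at h3
        refine Set.eq_of_subset_of_ncard_le (fun w hw => hpe _ hw) ?_
        rcases hZ.deg v with h4 | h4 <;> omega
      set Z' : Set (Sym2 V) := {e | e ∈ Z ∧ e ∉ p.edges} with hZ'
      have h3 : ∀ v, v ∈ p.support → ∀ w, s(v, w) ∉ Z' := by
        intro v hv w hw
        have h4 : w ∈ {w | s(v, w) ∈ Z} := hw.1
        rw [← h2 v hv] at h4
        exact hw.2 h4
      have h4 : ∀ v, v ∉ p.support → ∀ w, s(v, w) ∈ Z' ↔ s(v, w) ∈ Z := by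
        intro v hv w
        constructor
        · exact fun h => h.1
        · exact fun h => ⟨h, fun h' => hv (p.fst_mem_support_of_mem_edges h')⟩
      have hT : TwoReg G c i Z' := by
        refine ⟨fun u v huv => hZ.sub u v huv.1, fun v => ?_⟩
        by_cases hv : v ∈ p.support
        · left
          rw [Set.ncard_eq_zero]
          ext w
          simp [h3 v hv w]
        · simp only [h4 v hv]
          exact hZ.deg v
      obtain ⟨d, hd1⟩ := Pool.Agent.TH505.OCDC.cycle_has_dart hp
      have hlt : Z'.ncard < Z.ncard := by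
        refine Set.ncard_lt_ncard ?_
        refine ⟨fun e he => he.1, fun hsub => ?_⟩
        have hde : d.edge ∈ p.edges := by
          rw [SimpleGraph.Walk.edges, List.mem_map]
          exact ⟨d, hd1, rfl⟩
        exact (hsub (hpe _ hde)).2 hde
      have h5 := ih Z'.ncard (by omega) Z' rfl hT
      have h6 := h x p hp (fun e he => by
        have := hpe e he
        revert this he
        refine Sym2.ind (fun u v => ?_) e
        intro _ h7
        exact (hZ.sub u v h7).2)
      have h7 : {v | (∃ w, s(v, w) ∈ Z) ∧ Full G c i v} =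
          {v | v ∈ p.support ∧ Full G c i v} ∪ {v | (∃ w, s(v, w) ∈ Z') ∧ Full G c i v} := by
        ext v
        simp only [Set.mem_ofPred_eq, Set.mem_union]
        by_cases hv : v ∈ p.support
        · have h8 := hp.ncard_neighborSet_toSubgraph_eq_two hv
          rw [← h1, h2 v hv] at h8
          have h9 : {w | s(v, w) ∈ Z}.Nonempty := by
            rw [← Set.ncard_pos]
            omega
          have h10 : ∃ w, s(v, w) ∈ Z := h9
          simp [hv, h10, h3 v hv]
        · simp [hv, h4 v hv]
      rw [h7, Set.ncard_union_eq]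
      · exact h6.add h5
      · rw [Set.disjoint_left]
        rintro v ⟨hv, _⟩ ⟨⟨w, hw⟩, _⟩
        exact h3 v hv w hw
    · push Not at hne
      have : {v | (∃ w, s(v, w) ∈ Z) ∧ Full G c i v} = ∅ := by
        ext v
        simp [hne v]
      rw [this]
      simp

open scoped Classical in
/-- all members of the families together -/
theorem families_join {G : SimpleGraph V} {n : ℕ} (h : Families G n) :
    ∃ D : List (Σ v : V, G.Walk v v), (∀ c ∈ D, c.2.IsCycle) ∧ ∀ u v, G.Adj u v → trav D u v = 1 := by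
  obtain ⟨C, h1, -, h3⟩ := h
  refine ⟨(List.finRange n).flatMap C, fun c hc => ?_, fun u v huv => ?_⟩
  · rw [List.mem_flatMap] at hc
    obtain ⟨i, -, hc⟩ := hc
    exact h1 i c hc
  · have key : ∀ L : List (Fin n), trav (L.flatMap C) u v = (L.map fun i => trav (C i) u v).sum := by
      intro L
      induction L with
      | nil => rfl
      | cons i L ih =>
        rw [List.flatMap_cons, List.map_cons, List.sum_cons, ← ih]
        unfold trav
        rw [List.map_append, List.sum_append]
    rw [key, ← Fin.sum_univ_def]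
    exact h3 u v huv

/-- **The criterion for five classes.** -/
theorem five_circ_iff [Fintype V] {G : SimpleGraph V} (C : Cub G) :
    Families G 5 ↔ ∃ c : Sym2 V → Fin 4, FourColoured G c ∧
      ∀ i, i ≠ 0 → ∀ (x : V) (p : G.Walk x x), p.IsCycle → (∀ e ∈ p.edges, c e ≠ i) →
        Even {v | v ∈ p.support ∧ Full G c i v}.ncard := by
  obtain ⟨r, hr, -⟩ := exists_order V
  rw [five_iff C]
  constructor
  · rintro ⟨c, hc, h⟩
    refine ⟨c, hc, fun i hi => ?_⟩
    obtain ⟨o, ho⟩ := h i hi
    exact circ_of_even (fun Z hZ => even_of_alt ho hZ)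
  · rintro ⟨c, hc, h⟩
    refine ⟨c, hc, fun i hi => ?_⟩
    exact alt_of_even C c i r hr hi hc (fun Z hZ => even_of_circ (h i hi) _ Z rfl hZ)

end Pool.Agent.H66.OC
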