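import Pool.Agent.H66.OCDual

/-!
# Root flows of cubic graphs and the linear system
-/

set_option autoImplicit false

namespace Pool.Agent.H66.OC

open Finset Pool.Agent.H160R2.HF Pool.Agent.Q234.HF Pool.Agent.Q253.OD Pool.Agent.Q253.OR

variable {V : Type}

open scoped Classical in
/-- flows with values `e_i - e_j`, as functions on the arcs -/
def RootFlow [Fintype V] (G : SimpleGraph V) (F : V → V → ℕ → ℤ) : Prop :=
  (∀ u v, F v u = - F u v) ∧ (∀ u v, G.Adj u v → Rt (F u v)) ∧
    ∀ u, ∑ w, (if G.Adj u w then F u w else 0) = 0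

theorem oc_of_root [Fintype V] (G : SimpleGraph V) (F : V → V → ℕ → ℤ) (h : RootFlow G F) :
    OC G := by
  classical
  rw [flow_iff]
  obtain ⟨h1, h2, h3⟩ := h
  refine ⟨fun e => F (sE G e) (tE G e), fun v => ?_, fun e => h2 _ _ (st_adj G e)⟩
  have h4 := sum_edges G (fun u w => if G.Adj u w then F u w else 0) (fun u w h => if_neg h) v
  rw [h3 v] at h4
  rw [← h4]
  unfold gn
  refine Finset.sum_congr rfl fun e _ => ?_
  have h5 := st_adj G e
  have h6 := h5.symm
  simp only [h5, h6, if_true]
  rw [h1 (sE G e) (tE G e)]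
  split_ifs <;> simp

theorem root_of_oc [Fintype V] (G : SimpleGraph V) (h : OC G) : ∃ F, RootFlow G F := by
  classical
  rw [flow_iff] at h
  obtain ⟨ψ, h1, h2⟩ := h
  set F : V → V → ℕ → ℤ := fun u v => if h : G.Adj u v then
    (if sE G ⟨s(u, v), h⟩ = u then ψ ⟨s(u, v), h⟩ else - ψ ⟨s(u, v), h⟩) else 0 with hF
  have hst : ∀ u v (h : G.Adj u v), (sE G ⟨s(u, v), h⟩ = u ∧ tE G ⟨s(u, v), h⟩ = v) ∨
      (sE G ⟨s(u, v), h⟩ = v ∧ tE G ⟨s(u, v), h⟩ = u) := by
    intro u v h
    have h3 := st_mk G ⟨s(u, v), h⟩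
    rw [Sym2.eq_iff] at h3
    exact h3
  have hanti : ∀ u v, F v u = - F u v := by
    intro u v
    by_cases h3 : G.Adj u v
    · have h4 := h3.symm
      have h5 : (⟨s(v, u), h4⟩ : G.edgeSet) = ⟨s(u, v), h3⟩ := Subtype.ext Sym2.eq_swap
      simp only [hF, h3, h4, dif_pos]
      rw [h5]
      rcases hst u v h3 with h6 | h6
      · rw [if_pos h6.1, if_neg (by rw [h6.1]; exact h3.ne)]
      · rw [if_pos h6.1, if_neg (by rw [h6.1]; exact h3.ne'), neg_neg]
    · have h4 : ¬ G.Adj v u := fun h => h3 h.symm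
      simp [hF, h3, h4]
  have hFe : ∀ e : G.edgeSet, F (sE G e) (tE G e) = ψ e := by
    intro e
    have h3 := st_adj G e
    have h4 : (⟨s(sE G e, tE G e), h3⟩ : G.edgeSet) = e := Subtype.ext (st_mk G e)
    simp only [hF, h3, dif_pos]
    rw [h4, if_pos rfl]
  refine ⟨F, hanti, fun u v h3 => ?_, fun v => ?_⟩
  · simp only [hF, h3, dif_pos]
    split_ifs
    · exact h2 _
    · exact Rt.ng (h2 _)
  · have h4 := sum_edges G (fun u w => if G.Adj u w then F u w else 0) (fun u w h => if_neg h) v
    rw [← h4]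
    refine Eq.trans ?_ (h1 v)
    unfold gn
    refine Finset.sum_congr rfl fun e _ => ?_
    have h5 := st_adj G e
    have h6 := h5.symm
    simp only [h5, h6, if_true]
    rw [hanti (sE G e) (tE G e), hFe]
    split_ifs <;> simp

/-- three roots with sum zero -/
theorem three_roots (l r : Fin 3 → ℕ) (hne : ∀ i, l i ≠ r i) (h : ∑ i, rt (l i) (r i) = 0) :
    (∀ i, r i = l (i + 1)) ∨ (∀ i, r (i + 1) = l i) := by
  have h0 : ∀ n, ∑ i, (((if n = l i then (1 : ℤ) else 0) - (if n = r i then 1 else 0))) = 0 := by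
    intro n
    have := congrFun h n
    rw [Finset.sum_apply] at this
    simpa only [rt_apply, Pi.zero_apply] using this
  simp only [Fin.sum_univ_three] at h0
  have n0 := hne 0
  have n1 := hne 1
  have n2 := hne 2
  have a0 := h0 (l 0)
  have a1 := h0 (l 1)
  have a2 := h0 (l 2)
  have b0 := h0 (r 0)
  have b1 := h0 (r 1)
  have b2 := h0 (r 2)
  have c0 : l 0 = r 1 ∨ l 0 = r 2 := by
    by_contra hh
    push Not at hh
    simp only [n0, hh.1, hh.2, if_true, if_false] at a0
    split_ifs at a0 <;> omega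
  have c1 : l 1 = r 0 ∨ l 1 = r 2 := by
    by_contra hh
    push Not at hh
    simp only [n1, hh.1, hh.2, if_true, if_false] at a1
    split_ifs at a1 <;> omega
  have c2 : l 2 = r 0 ∨ l 2 = r 1 := by
    by_contra hh
    push Not at hh
    simp only [n2, hh.1, hh.2, if_true, if_false] at a2
    split_ifs at a2 <;> omega
  have s01 : l 0 = r 1 → l 1 = r 0 → False := by
    intro e0 e1
    simp only [e0, e1, n2, if_true, if_false] at a2
    omega
  have s12 : l 1 = r 2 → l 2 = r 1 → False := by
    intro e0 e1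
    simp only [e0, e1, n0, if_true, if_false] at a0
    omega
  have s02 : l 0 = r 2 → l 2 = r 0 → False := by
    intro e0 e1
    simp only [e0, e1, n1, if_true, if_false] at a1
    omega
  rcases c0 with e0 | e0 <;> rcases c1 with e1 | e1 <;> rcases c2 with e2 | e2
  · exact (s01 e0 e1).elim
  · exact (s01 e0 e1).elim
  · right
    intro i
    fin_cases i
    · exact e0.symm
    · exact e1.symm
    · exact e2.symm
  · exact (s12 e1 e2).elim
  · exact (s02 e0 e2).elim
  · left
    intro i
    fin_cases i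
    · exact e1.symm
    · exact e2.symm
    · exact e0.symm
  · exact (s02 e0 e2).elim
  · exact (s12 e1 e2).elim

/-- from labels of the arcs to the linear system -/
theorem sys_of_labels {G : SimpleGraph V} (C : Cub G) {B : ℕ} (x : Sym2 V → Fin B → ZMod 2)
    (Lab : V → V → Fin B → ZMod 2) (hx : ∀ u v, G.Adj u v → x s(u, v) = Lab u v + Lab v u)
    (hv : ∀ u, (∀ i, Lab (C.N u i) u = Lab u (C.N u (i + 1))) ∨
      (∀ i, Lab (C.N u (i + 1)) u = Lab u (C.N u i))) :
    ∃ (m : V → Fin B → ZMod 2) (ε : V → ZMod 2), Sys C x m ε := by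
  have hm : ∀ u, ∃ ε : ZMod 2, ∀ i, Lab u (C.N u i) =
      ∑ j, Lab u (C.N u j) + ε • x s(u, C.N u i) + x s(u, C.N u (i + 1)) := by
    intro u
    have hperm : ∀ i : Fin 3, ∀ f : Fin 3 → Fin B → ZMod 2, ∑ j, f j = f i + f (i + 1) + f (i + 2) := by
      intro i f
      rw [Fin.sum_univ_three]
      fin_cases i
      · rfl
      · show f 0 + f 1 + f 2 = f 1 + f 2 + f 0
        abel
      · show f 0 + f 1 + f 2 = f 2 + f 0 + f 1
        abel
    have hxi : ∀ i, x s(u, C.N u i) = Lab u (C.N u i) + Lab (C.N u i) u :=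
      fun i => hx u _ (C.adjN u i)
    rcases hv u with h5 | h5
    · refine ⟨0, fun i => ?_⟩
      rw [hperm i, hxi, hxi, h5 i, h5 (i + 1), zero_smul, add_zero]
      have h6 : i + 1 + 1 = i + 2 := by fin_cases i <;> rfl
      rw [h6]
      have key : ∀ a b c : ZMod 2, a = a + b + c + (b + c) := by decide
      funext t
      exact key _ _ _
    · refine ⟨1, fun i => ?_⟩
      have h7 : Lab (C.N u i) u = Lab u (C.N u (i + 2)) := by
        have := h5 (i + 2)
        have h6 : i + 2 + 1 = i := by fin_cases i <;> rfl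
        rw [h6] at this
        exact this
      rw [hperm i, hxi, hxi, h5 i, h7, one_smul]
      have key : ∀ a b c : ZMod 2, a = a + b + c + (a + c) + (b + a) := by decide
      funext t
      exact key _ _ _
  obtain ⟨M, hM⟩ : ∃ M : V → Fin B → ZMod 2, ∀ u, ∑ j, Lab u (C.N u j) = M u :=
    ⟨_, fun _ => rfl⟩
  choose ε hε using hm
  simp only [hM] at hε
  refine ⟨M, ε, ?_⟩
  have key : ∀ u v, G.Adj u v → Lab u v = M u + ε u • x s(u, v) + x s(u, C.nx u v) := by
    intro u v huv
    obtain ⟨i, rfl⟩ := (C.adj u v).1 huv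
    rw [C.nx_N]
    exact hε u i
  intro u v huv
  have k1 := key u v huv
  have k2 := key v u huv.symm
  rw [Sym2.eq_swap (a := v) (b := u)] at k2
  have k3 := hx u v huv
  rw [add_smul]
  rw [k1, k2] at k3
  have key2 : ∀ mu mv a b c d e : ZMod 2, e = mu + a + c + (mv + b + d) →
      mu + mv + (a + b) = e + c + d := by decide
  funext t
  exact key2 _ _ _ _ _ _ _ (congrFun k3 t)

/-- from a root flow to the linear system -/
theorem sys_of_root [Fintype V] {G : SimpleGraph V} (C : Cub G) (F : V → V → ℕ → ℤ)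
    (h : RootFlow G F) : ∃ (k : ℕ) (x : Sym2 V → Fin k → ZMod 2), Flow2 G x ∧
      (∀ u v, G.Adj u v → x s(u, v) ≠ 0) ∧
      ∃ (m : V → Fin k → ZMod 2) (ε : V → ZMod 2), Sys C x m ε := by
  classical
  obtain ⟨h1, h2, h3⟩ := h
  have h4 : ∀ u v, ∃ i, G.Adj u v → ∃ j, i ≠ j ∧ F u v = rt i j := by
    intro u v
    by_cases huv : G.Adj u v
    · obtain ⟨i, j, h5, h6⟩ := h2 u v huv
      exact ⟨i, fun _ => ⟨j, h5, h6⟩⟩
    · exact ⟨0, fun h => absurd h huv⟩
  choose L hL using h4
  have hLL : ∀ u v, G.Adj u v → L u v ≠ L v u ∧ F u v = rt (L u v) (L v u) := by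
    intro u v huv
    obtain ⟨j, h5, h6⟩ := hL u v huv
    obtain ⟨j', h7, h8⟩ := hL v u huv.symm
    have h9 : rt (L v u) j' = rt j (L u v) := by
      rw [← h8, h1 u v, h6, rt_neg]
    have h10 := rt_inj h7 h9
    rw [h10.1]
    exact ⟨h5, h6⟩
  -- a bound for the colours
  obtain ⟨B, hB⟩ : ∃ B, ∀ u v, L u v < B := by
    refine ⟨(∑ u, ∑ v, L u v) + 1, fun u v => Nat.lt_succ_of_le ?_⟩
    exact (Finset.single_le_sum (f := fun v => L u v) (fun _ _ => Nat.zero_le _)
      (Finset.mem_univ v)).trans (Finset.single_le_sum (f := fun u => ∑ v, L u v)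
      (fun _ _ => Nat.zero_le _) (Finset.mem_univ u))
  let enc : ℕ → Fin B → ZMod 2 := fun n i => if i.val = n then 1 else 0
  have henc : ∀ a b, a < B → a ≠ b → enc a ≠ enc b := by
    intro a b ha hab hh
    have := congrFun hh ⟨a, ha⟩
    simp [enc, hab] at this
  let x : Sym2 V → Fin B → ZMod 2 := Sym2.lift ⟨fun u v => enc (L u v) + enc (L v u),
    fun u v => add_comm _ _⟩
  have hx : ∀ u v, x s(u, v) = enc (L u v) + enc (L v u) := fun u v => rfl
  -- the colours at a vertex
  have hv : ∀ u, (∀ i, L (C.N u i) u = L u (C.N u (i + 1))) ∨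
      (∀ i, L (C.N u (i + 1)) u = L u (C.N u i)) := by
    intro u
    refine three_roots (fun i => L u (C.N u i)) (fun i => L (C.N u i) u)
      (fun i => (hLL u _ (C.adjN u i)).1) ?_
    have h5 := h3 u
    rw [C.sum_nb u (fun w => F u w)] at h5
    rw [← h5]
    exact Finset.sum_congr rfl fun i _ => (hLL u _ (C.adjN u i)).2.symm
  have hsum : ∀ u, ∑ i, enc (L (C.N u i) u) = ∑ i, enc (L u (C.N u i)) := by
    intro u
    rcases hv u with h5 | h5
    · rw [Finset.sum_congr rfl fun i _ => by rw [h5 i]]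
      exact Equiv.sum_comp (Equiv.addRight (1 : Fin 3)) (fun i => enc (L u (C.N u i)))
    · rw [← Equiv.sum_comp (Equiv.addRight (1 : Fin 3)) (fun i => enc (L (C.N u i) u))]
      exact Finset.sum_congr rfl fun i _ => by
        show enc (L (C.N u (i + 1)) u) = _
        rw [h5 i]
  have hfl : Flow2 G x := by
    refine flow_of_cub C x fun v => ?_
    simp only [hx]
    rw [Finset.sum_add_distrib, hsum, add_self_vec]
  refine ⟨B, x, hfl, fun u v huv => ?_, sys_of_labels C x (fun u v => enc (L u v))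
    (fun u v _ => hx u v) fun u => ?_⟩
  · rw [hx]
    intro h5
    exact henc _ _ (hB u v) (hLL u v huv).1 (two_eq _ _ h5)
  · rcases hv u with h5 | h5
    · exact Or.inl fun i => congrArg enc (h5 i)
    · exact Or.inr fun i => congrArg enc (h5 i)

theorem three_sum {k : ℕ} (f : Fin 3 → Fin k → ZMod 2) (h : ∑ i, f i = 0) (i : Fin 3) :
    f i + f (i + 1) = f (i + 2) := by
  rw [Fin.sum_univ_three] at h
  have key : ∀ a b c : ZMod 2, a + b + c = 0 → a + b = c := by decide
  have key2 : ∀ a b c : Fin k → ZMod 2, a + b + c = 0 → a + b = c := by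
    intro a b c h
    funext t
    exact key _ _ _ (congrFun h t)
  fin_cases i
  · exact key2 _ _ _ h
  · refine key2 _ _ _ ?_
    rw [← h]
    show f 1 + f 2 + f 0 = f 0 + f 1 + f 2
    abel
  · refine key2 _ _ _ ?_
    rw [← h]
    show f 2 + f 0 + f 1 = f 0 + f 1 + f 2
    abel

/-- from the linear system to labels of the arcs -/
theorem labels_of_sys [Fintype V] {G : SimpleGraph V} (C : Cub G) {k : ℕ}
    (x : Sym2 V → Fin k → ZMod 2) (hx : Flow2 G x)
    (m : V → Fin k → ZMod 2) (ε : V → ZMod 2) (hS : Sys C x m ε) :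
    ∃ Lab : V → V → Fin k → ZMod 2, (∀ u v, G.Adj u v → Lab v u = x s(u, v) + Lab u v) ∧
      ∀ u, ∃ c : Fin 3, ∀ i, Lab (C.N u i) u = Lab u (C.N u (i + c)) := by
  classical
  set Lc : V → V → Fin k → ZMod 2 := fun u v => m u + ε u • x s(u, v) + x s(u, C.nx u v) with hLc
  have hsum : ∀ u v, G.Adj u v → Lc v u = x s(u, v) + Lc u v := by
    intro u v huv
    have h := hS u v huv
    simp only [hLc]
    rw [Sym2.eq_swap (a := v) (b := u)]
    rw [add_smul] at h
    have key : ∀ mu mv a b c d e : ZMod 2, mu + mv + (a + b) = e + c + d →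
        mv + b + d = e + (mu + a + c) := by decide
    funext t
    exact key _ _ _ _ _ _ _ (congrFun h t)
  refine ⟨Lc, hsum, fun u => ?_⟩
  have hfl := flow_cub C x hx u
  have h3 := three_sum (fun i => x s(u, C.N u i)) hfl
  have h4 : ε u = 0 ∨ ε u = 1 := by
    generalize ε u = e
    revert e
    decide
  have h31 : ∀ i : Fin 3, i + 1 + 1 = i + 2 := by decide
  have h32 : ∀ i : Fin 3, i + 2 + 1 = i := by decide
  rcases h4 with h4 | h4
  · refine ⟨1, fun i => ?_⟩
    rw [hsum u _ (C.adjN u i)]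
    simp only [hLc, h4, zero_smul, add_zero, C.nx_N, h31]
    rw [← h3 i]
    abel
  · refine ⟨2, fun i => ?_⟩
    rw [hsum u _ (C.adjN u i)]
    simp only [hLc, h4, one_smul, C.nx_N, h32]
    have h5 := h3 i
    beta_reduce at h5
    have key : ∀ a b c m : ZMod 2, a + b = c → a + (m + a + b) = m + c + a := by decide
    funext t
    exact key _ _ _ _ (congrFun h5 t)

theorem exists_code (k : ℕ) : ∃ code : (Fin k → ZMod 2) → ℕ, Function.Injective code :=
  ⟨fun a => (Fintype.equivFin _ a).val, fun _ _ h => (Fintype.equivFin _).injective (Fin.ext h)⟩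

/-- from the linear system to a root flow -/
theorem root_of_sys [Fintype V] {G : SimpleGraph V} (C : Cub G) {k : ℕ}
    (x : Sym2 V → Fin k → ZMod 2) (hx : Flow2 G x) (hnz : ∀ u v, G.Adj u v → x s(u, v) ≠ 0)
    (m : V → Fin k → ZMod 2) (ε : V → ZMod 2) (hS : Sys C x m ε) : ∃ F, RootFlow G F := by
  classical
  obtain ⟨code, hcode⟩ := exists_code k
  obtain ⟨Lc, hsum, hc⟩ := labels_of_sys C x hx m ε hS
  refine ⟨fun u v => if G.Adj u v then rt (code (Lc u v)) (code (Lc v u)) else 0,
    fun u v => ?_, fun u v huv => ?_, fun u => ?_⟩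
  · by_cases h : G.Adj u v
    · have h' := h.symm
      simp only [h, h', if_true, rt_neg]
    · have h' : ¬ G.Adj v u := fun hh => h hh.symm
      simp [h, h']
  · simp only [huv, if_true]
    refine ⟨_, _, fun h => ?_, rfl⟩
    have h1 := hcode h
    rw [hsum u v huv] at h1
    apply hnz u v huv
    have h2 : x s(u, v) + Lc u v = 0 + Lc u v := by rw [zero_add]; exact h1.symm
    exact add_right_cancel h2
  · have h1 : ∀ w, (if G.Adj u w then (if G.Adj u w then rt (code (Lc u w)) (code (Lc w u)) else 0)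
        else 0) = if G.Adj u w then rt (code (Lc u w)) (code (Lc w u)) else 0 := by
      intro w
      split_ifs <;> rfl
    rw [Finset.sum_congr rfl fun w _ => h1 w,
      C.sum_nb u (fun w => rt (code (Lc u w)) (code (Lc w u)))]
    obtain ⟨c, hc⟩ := hc u
    have h3 : ∀ i, rt (code (Lc u (C.N u i))) (code (Lc (C.N u i) u)) =
        Pi.single (code (Lc u (C.N u i))) 1 - Pi.single (code (Lc u (C.N u (i + c)))) 1 := by
      intro i
      rw [hc i]
      rfl
    rw [Finset.sum_congr rfl fun i _ => h3 i, Finset.sum_sub_distrib, sub_eq_zero]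
    exact (Equiv.sum_comp (Equiv.addRight c) (fun i => Pi.single (code (Lc u (C.N u i))) 1)).symm

/-! ### Labelled covers -/

open scoped Classical in
/-- number of times the closed walks in the list traverse the arc `(u, v)` -/
noncomputable def trav {G : SimpleGraph V} (C : List (Σ v : V, G.Walk v v)) (u v : V) : ℕ :=
  (C.map (fun c => (c.2.darts.filter (fun d => decide (d.toProd = (u, v)))).length)).sum

open scoped Classical in
/-- There are directed cycles of `G`, labelled by the elements of `F₂^k`, such that every arc `(u, v)`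
is traversed exactly once, and the labels of the cycles which traverse the two arcs of an edge differ
by the value of `x` on this edge. -/
def LabelledCover (G : SimpleGraph V) {k : ℕ} (x : Sym2 V → Fin k → ZMod 2) : Prop :=
  ∃ C : (Fin k → ZMod 2) → List (Σ v : V, G.Walk v v), (∀ a, ∀ c ∈ C a, c.2.IsCycle) ∧
    ∀ u v, G.Adj u v → ∃ a, ∀ b, trav (C b) u v = (if b = a then 1 else 0) ∧
      trav (C b) v u = if b = a + x s(u, v) then 1 else 0

open Pool.Agent.TH505.OCDC in
theorem cover_of_sys [Fintype V] {G : SimpleGraph V} (C : Cub G) {k : ℕ}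
    (x : Sym2 V → Fin k → ZMod 2) (hx : Flow2 G x) (hnz : ∀ u v, G.Adj u v → x s(u, v) ≠ 0)
    (m : V → Fin k → ZMod 2) (ε : V → ZMod 2) (hS : Sys C x m ε) : LabelledCover G x := by
  classical
  obtain ⟨Lc, hsum, hc⟩ := labels_of_sys C x hx m ε hS
  have hne : ∀ u v, G.Adj u v → Lc u v ≠ Lc v u := by
    intro u v huv h1
    rw [hsum u v huv] at h1
    apply hnz u v huv
    have h2 : x s(u, v) + Lc u v = 0 + Lc u v := by rw [zero_add]; exact h1.symm
    exact add_right_cancel h2
  have key : ∀ b : Fin k → ZMod 2, ∃ D : List (Σ v : V, G.Walk v v), (∀ c ∈ D, c.2.IsCycle) ∧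
      ∀ u v, G.Adj u v → trav D u v = if b = Lc u v then 1 else 0 := by
    intro b
    obtain ⟨D, h1, h2⟩ := flow_decomp (G := G) (fun u v => if G.Adj u v then
      (if b = Lc u v then (1 : ℤ) else 0) - (if b = Lc v u then 1 else 0) else 0) (fun u v => by
        by_cases h : G.Adj u v
        · have h' := h.symm
          simp only [h, h', if_true]
          ring
        · have h' : ¬ G.Adj v u := fun hh => h hh.symm
          simp [h, h']) (fun u v => by
        split_ifs <;> simp) (fun u v h => by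
        by_contra hh
        simp [hh] at h) (fun u => by
        rw [C.sum_nb u (fun w => (if b = Lc u w then (1 : ℤ) else 0) - (if b = Lc w u then 1 else 0))]
        obtain ⟨c, hc⟩ := hc u
        simp only [hc]
        rw [Finset.sum_sub_distrib, sub_eq_zero]
        exact (Equiv.sum_comp (Equiv.addRight c)
          (fun i => if b = Lc u (C.N u i) then (1 : ℤ) else 0)).symm)
    refine ⟨D, h1, fun u v huv => ?_⟩
    have h3 : trav D u v = tot D u v := rfl
    rw [h3, h2]
    unfold ind
    simp only [huv, if_true]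
    by_cases h4 : b = Lc u v
    · have h5 : b ≠ Lc v u := by
        rw [h4]
        exact hne u v huv
      rw [if_pos h4, if_neg h5, if_pos h4]
      simp
    · rw [if_neg h4, if_neg h4]
      split_ifs <;> simp_all
  choose D hD1 hD2 using key
  refine ⟨D, hD1, fun u v huv => ⟨Lc u v, fun b => ⟨hD2 b u v huv, ?_⟩⟩⟩
  rw [hD2 b v u huv.symm, hsum u v huv, add_comm]

open Pool.Agent.TH505.OCDC in
theorem sys_of_cover [Fintype V] {G : SimpleGraph V} (C : Cub G) {k : ℕ}
    (x : Sym2 V → Fin k → ZMod 2) (hnz : ∀ u v, G.Adj u v → x s(u, v) ≠ 0)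
    (h : LabelledCover G x) : ∃ (m : V → Fin k → ZMod 2) (ε : V → ZMod 2), Sys C x m ε := by
  classical
  obtain ⟨D, hD1, hD2⟩ := h
  have h1 : ∀ u v, ∃ a, G.Adj u v → ∀ b, trav (D b) u v = (if b = a then 1 else 0) ∧
      trav (D b) v u = if b = a + x s(u, v) then 1 else 0 := by
    intro u v
    by_cases huv : G.Adj u v
    · obtain ⟨a, ha⟩ := hD2 u v huv
      exact ⟨a, fun _ => ha⟩
    · exact ⟨0, fun h => absurd h huv⟩
  choose Lab hLab using h1
  have h2 : ∀ u v, G.Adj u v → Lab v u = Lab u v + x s(u, v) := by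
    intro u v huv
    have h3 := (hLab u v huv (Lab v u)).2
    have h4 := (hLab v u huv.symm (Lab v u)).1
    rw [if_pos rfl] at h4
    rw [h4] at h3
    by_contra h5
    rw [if_neg h5] at h3
    exact one_ne_zero h3
  have h3 : ∀ u v, G.Adj u v → x s(u, v) = Lab u v + Lab v u := by
    intro u v huv
    rw [h2 u v huv, ← add_assoc, add_self_vec, zero_add]
  have hcons : ∀ b u, ∑ w, (trav (D b) u w : ℤ) = ∑ w, (trav (D b) w u : ℤ) := by
    intro b u
    have h4 : ∀ L : List (Σ v : V, G.Walk v v), ∑ w, (tot L u w : ℤ) = ∑ w, (tot L w u : ℤ) := by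
      intro L
      induction L with
      | nil => simp [tot_nil]
      | cons c L ih =>
        have h5 : (∑ w, (dc c.2 u w : ℤ)) = ∑ w, (dc c.2 w u : ℤ) := by
          exact_mod_cast dc_closed c.2 u
        simp only [tot_cons, Nat.cast_add, Finset.sum_add_distrib, ih, h5]
    exact h4 _
  have hz : ∀ b u w, ¬ G.Adj u w → trav (D b) u w = 0 := by
    intro b u w huw
    have h4 : ∀ L : List (Σ v : V, G.Walk v v), tot L u w = 0 := by
      intro L
      induction L with
      | nil => exact tot_nil _ _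
      | cons c L ih =>
        rw [tot_cons, ih, add_zero]
        by_contra h5
        exact huw (dc_adj _ (Nat.pos_of_ne_zero h5))
    exact h4 _
  obtain ⟨code, hcode⟩ := exists_code k
  refine sys_of_labels C x Lab h3 fun u => ?_
  have h5 := three_roots (fun i => code (Lab u (C.N u i))) (fun i => code (Lab (C.N u i) u))
    (fun i h => by
      have h6 := hcode h
      apply hnz u _ (C.adjN u i)
      rw [h3 u _ (C.adjN u i), ← h6, add_self_vec]) ?_
  · rcases h5 with h5 | h5
    · exact Or.inl fun i => hcode (h5 i)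
    · exact Or.inr fun i => hcode (h5 i)
  · funext n
    rw [Finset.sum_apply]
    simp only [rt_apply, Pi.zero_apply]
    by_cases hn : ∃ b, n = code b
    · obtain ⟨b, rfl⟩ := hn
      have h6 : ∀ a, (code b = code a) ↔ b = a := fun a => hcode.eq_iff
      simp only [h6]
      rw [Finset.sum_sub_distrib, sub_eq_zero]
      have h7 := hcons b u
      have h8 : ∀ w, (trav (D b) u w : ℤ) = if G.Adj u w then (if b = Lab u w then 1 else 0) else 0 := by
        intro w
        by_cases huw : G.Adj u w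
        · rw [(hLab u w huw b).1, if_pos huw]
          split_ifs <;> simp
        · rw [hz b u w huw, if_neg huw]
          simp
      have h9 : ∀ w, (trav (D b) w u : ℤ) = if G.Adj u w then (if b = Lab w u then 1 else 0) else 0 := by
        intro w
        by_cases huw : G.Adj u w
        · rw [(hLab w u huw.symm b).1, if_pos huw]
          split_ifs <;> simp
        · rw [hz b w u (fun h => huw h.symm), if_neg huw]
          simp
      simp only [h8, h9] at h7
      rw [C.sum_nb u (fun w => if b = Lab u w then (1 : ℤ) else 0),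
        C.sum_nb u (fun w => if b = Lab w u then (1 : ℤ) else 0)] at h7
      exact h7
    · have h6 : ∀ a, ¬ n = code a := fun a h => hn ⟨a, h⟩
      simp [h6]

open scoped Classical in
/-- a strict order on the vertices -/
theorem exists_order (V : Type) [Fintype V] : ∃ r : V → V → Prop,
    (∀ u v, u ≠ v → (r u v ↔ ¬ r v u)) ∧ ∀ u v, r u v → ¬ r v u := by
  let e := Fintype.equivFin V
  refine ⟨fun u v => e u < e v, fun u v huv => ?_, fun u v h => not_lt.2 h.le⟩
  have h1 : e u ≠ e v := fun h => huv (e.injective h)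
  constructor
  · exact fun h => not_lt.2 h.le
  · exact fun h => lt_of_le_of_ne (not_lt.1 h) h1

theorem even_iff [Fintype V] (P : V → Prop) [DecidablePred P] :
    Even {v | P v}.ncard ↔ ∑ v, (if P v then (1 : ZMod 2) else 0) = 0 := by
  rw [Finset.sum_boole, Set.ncard_eq_toFinset_card' {v | P v}, Set.toFinset_ofPred]
  rw [ZMod.natCast_eq_zero_iff_even]

/-- **Criterion for a given flow.** -/
theorem cover_iff [Fintype V] (G : SimpleGraph V) (h3 : ∀ v, (G.neighborSet v).ncard = 3) {k : ℕ}
    (x : Sym2 V → Fin k → ZMod 2) (hx : Flow2 G x) (hnz : ∀ u v, G.Adj u v → x s(u, v) ≠ 0) :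
    LabelledCover G x ↔
      ∀ y, Flow2 G y → SymmetricTo G x y → Even {v | NonsingularAt G x y v}.ncard := by
  classical
  obtain ⟨C⟩ := exists_cub G h3
  obtain ⟨r, hr, hr'⟩ := exists_order V
  constructor
  · intro h y hy hs
    obtain ⟨m, ε, hS⟩ := sys_of_cover C x hnz h
    rw [even_iff]
    exact parity_of_sys C x y r hr hx hy hs m ε hS
  · intro h
    obtain ⟨m, ε, hS⟩ := sys_of_parity C x r hr hr' hx (fun y hy hs => by
      rw [← even_iff]
      exact h y hy hs)
    exact cover_of_sys C x hx hnz m ε hS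

/-- **Main equivalence for cubic graphs.** -/
theorem oc_iff [Fintype V] (G : SimpleGraph V) (h3 : ∀ v, (G.neighborSet v).ncard = 3) :
    OC G ↔ ∃ (k : ℕ) (x : Sym2 V → Fin k → ZMod 2), Flow2 G x ∧
      (∀ u v, G.Adj u v → x s(u, v) ≠ 0) ∧
      ∀ y, Flow2 G y → SymmetricTo G x y → Even {v | NonsingularAt G x y v}.ncard := by
  classical
  obtain ⟨C⟩ := exists_cub G h3
  obtain ⟨r, hr, hr'⟩ := exists_order V
  constructor
  · intro h
    obtain ⟨F, hF⟩ := root_of_oc G h
    obtain ⟨k, x, hx, hnz, m, ε, hS⟩ := sys_of_root C F hF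
    refine ⟨k, x, hx, hnz, fun y hy hs => ?_⟩
    rw [even_iff]
    exact parity_of_sys C x y r hr hx hy hs m ε hS
  · rintro ⟨k, x, hx, hnz, h⟩
    obtain ⟨m, ε, hS⟩ := sys_of_parity C x r hr hr' hx (fun y hy hs => by
      rw [← even_iff]
      exact h y hy hs)
    obtain ⟨F, hF⟩ := root_of_sys C x hx hnz m ε hS
    exact oc_of_root G F hF

end Pool.Agent.H66.OC
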