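import Pool.Agent.H66.OCFive

/-!
# Oriented double covers with `2 ^ r` classes and directed even subgraphs
-/

set_option autoImplicit false

namespace Pool.Agent.H66.OC

open Finset

variable {V : Type}

open scoped Classical in
/-- families of directed cycles indexed by `K`; no family traverses an edge more than once in total,
and every edge of `G` is traversed exactly once in each direction -/
def FamK (G : SimpleGraph V) (K : Type) [Fintype K] : Prop :=
  ∃ C : K → List (Σ v : V, G.Walk v v), (∀ i, ∀ c ∈ C i, c.2.IsCycle) ∧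
    (∀ i u v, G.Adj u v → trav (C i) u v + trav (C i) v u ≤ 1) ∧
    ∀ u v, G.Adj u v → ∑ i, trav (C i) u v = 1

theorem FamK.congr {G : SimpleGraph V} {K K' : Type} [Fintype K] [Fintype K'] (e : K ≃ K')
    (h : FamK G K) : FamK G K' := by
  obtain ⟨C, h1, h2, h3⟩ := h
  refine ⟨fun i => C (e.symm i), fun i => h1 _, fun i => h2 _, fun u v huv => ?_⟩
  rw [← h3 u v huv]
  exact Equiv.sum_comp e.symm (fun i => trav (C i) u v)

open scoped Classical in
/-- labels of the arcs such that every class is balanced at every vertex -/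
structure LabBal [Fintype V] (G : SimpleGraph V) {K : Type} (L : V → V → K) : Prop where
  ne : ∀ u v, G.Adj u v → L u v ≠ L v u
  bal : ∀ (c : K) (v : V), ∑ w, (if G.Adj v w ∧ c = L v w then (1 : ℤ) else 0) =
    ∑ w, (if G.Adj v w ∧ c = L w v then (1 : ℤ) else 0)

open Pool.Agent.TH505.OCDC in
theorem famK_of_lab [Fintype V] {G : SimpleGraph V} {K : Type} [Fintype K]
    (L : V → V → K) (h : LabBal G L) : FamK G K := by
  classical
  obtain ⟨hne, hbal⟩ := h
  have key : ∀ b : K, ∃ D : List (Σ v : V, G.Walk v v), (∀ c ∈ D, c.2.IsCycle) ∧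
      ∀ u v, G.Adj u v → trav D u v = if b = L u v then 1 else 0 := by
    intro b
    obtain ⟨D, h1, h2⟩ := flow_decomp (G := G) (fun u v => if G.Adj u v then
      (if b = L u v then (1 : ℤ) else 0) - (if b = L v u then 1 else 0) else 0) (fun u v => by
        by_cases h : G.Adj u v
        · have h' := h.symm
          simp only [h, h', if_true]
          ring
        · have h' : ¬ G.Adj v u := fun hh => h hh.symm
          simp [h, h']) (fun u v => by
        split_ifs <;> simp) (fun u v h => by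
        by_contra hh
        simp [hh] at h) (fun u => by
        have h3 := hbal b u
        rw [← sub_eq_zero, ← Finset.sum_sub_distrib] at h3
        refine Eq.trans (Finset.sum_congr rfl fun w _ => ?_) h3
        by_cases h4 : G.Adj u w
        · simp [h4]
        · simp [h4])
    refine ⟨D, h1, fun u v huv => ?_⟩
    have h3 : trav D u v = tot D u v := rfl
    rw [h3, h2]
    unfold ind
    simp only [huv, if_true]
    by_cases h4 : b = L u v
    · have h5 : b ≠ L v u := by
        rw [h4]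
        exact hne u v huv
      rw [if_pos h4, if_neg h5, if_pos h4]
      simp
    · rw [if_neg h4, if_neg h4]
      split_ifs <;> simp_all
  choose D hD1 hD2 using key
  refine ⟨D, hD1, fun i u v huv => ?_, fun u v huv => ?_⟩
  · rw [hD2 i u v huv, hD2 i v u huv.symm]
    have := hne u v huv
    split_ifs with h1 h2
    · exact absurd (h1.symm.trans h2) this
    all_goals simp
  · simp only [hD2 _ u v huv]
    simp

open Pool.Agent.TH505.OCDC in
theorem lab_of_famK [Fintype V] {G : SimpleGraph V} {K : Type} [Fintype K] [Nonempty K]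
    (h : FamK G K) : ∃ L : V → V → K, LabBal G L := by
  classical
  obtain ⟨D, hD1, hD2, hD3⟩ := h
  obtain ⟨i0⟩ := ‹Nonempty K›
  have h1 : ∀ u v, ∃ a, G.Adj u v → ∀ b, trav (D b) u v = (if b = a then 1 else 0) := by
    intro u v
    by_cases huv : G.Adj u v
    · have h2 := hD3 u v huv
      have h3 : ∃ a, trav (D a) u v ≠ 0 := by
        by_contra hh
        push Not at hh
        rw [Finset.sum_eq_zero (fun i _ => hh i)] at h2
        exact zero_ne_one h2
      obtain ⟨a, ha⟩ := h3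
      refine ⟨a, fun _ b => ?_⟩
      have h4 : trav (D a) u v + ∑ i ∈ univ.erase a, trav (D i) u v = 1 := by
        rw [Finset.add_sum_erase univ (fun i => trav (D i) u v) (Finset.mem_univ a)]
        exact h2
      by_cases hb : b = a
      · rw [if_pos hb, hb]
        omega
      · rw [if_neg hb]
        have h5 : trav (D b) u v ≤ ∑ i ∈ univ.erase a, trav (D i) u v :=
          Finset.single_le_sum (f := fun i => trav (D i) u v) (fun _ _ => Nat.zero_le _)
            (Finset.mem_erase.2 ⟨hb, Finset.mem_univ b⟩)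
        omega
    · exact ⟨i0, fun h => absurd h huv⟩
  choose L hL using h1
  have hne : ∀ u v, G.Adj u v → L u v ≠ L v u := by
    intro u v huv h
    have h2 := hD2 (L u v) u v huv
    rw [hL u v huv, hL v u huv.symm, if_pos rfl, if_pos h] at h2
    omega
  have hcons : ∀ b u, ∑ w, (trav (D b) u w : ℤ) = ∑ w, (trav (D b) w u : ℤ) := by
    intro b u
    have h4 : ∀ L : List (Σ v : V, G.Walk v v), ∑ w, (tot L u w : ℤ) = ∑ w, (tot L w u : ℤ) := by
      intro L
      induction L with
      | nil => simp [tot_nil]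
      | cons c L ih =>
        have h5 : (∑ w, (dc c.2 u w : ℤ)) = ∑ w, (dc c.2 w u : ℤ) := by
          exact_mod_cast dc_closed c.2 u
        simp only [tot_cons, Nat.cast_add, Finset.sum_add_distrib, ih, h5]
    exact h4 _
  have hz : ∀ b u w, ¬ G.Adj u w → trav (D b) u w = 0 := by
    intro b u w huw
    have h4 : ∀ L : List (Σ v : V, G.Walk v v), tot L u w = 0 := by
      intro L
      induction L with
      | nil => exact tot_nil _ _
      | cons c L ih =>
        rw [tot_cons, ih, add_zero]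
        by_contra h5
        exact huw (dc_adj _ (Nat.pos_of_ne_zero h5))
    exact h4 _
  refine ⟨L, hne, fun b u => ?_⟩
  have h7 := hcons b u
  have h8 : ∀ w, (trav (D b) u w : ℤ) = if G.Adj u w ∧ b = L u w then 1 else 0 := by
    intro w
    by_cases huw : G.Adj u w
    · rw [hL u w huw b]
      by_cases h9 : b = L u w <;> simp [huw, h9]
    · rw [hz b u w huw]
      simp [huw]
  have h9 : ∀ w, (trav (D b) w u : ℤ) = if G.Adj u w ∧ b = L w u then 1 else 0 := by
    intro w
    by_cases huw : G.Adj u w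
    · rw [hL w u huw.symm b]
      by_cases h9 : b = L w u <;> simp [huw, h9]
    · rw [hz b w u (fun h => huw h.symm)]
      simp [huw]
  simp only [h8, h9] at h7
  exact h7

/-! ### Characters -/

/-- the sign of an element of the field with two elements -/
def sg (a : ZMod 2) : ℤ := if a = 0 then 1 else -1

theorem sg_add : ∀ a b : ZMod 2, sg (a + b) = sg a * sg b := by decide

theorem sg_ind : ∀ a b : ZMod 2, sg a - sg b =
    2 * ((if a = 0 ∧ b = 1 then 1 else 0) - (if b = 0 ∧ a = 1 then 1 else 0)) := by decide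

theorem sum_sg {r : ℕ} (m : Fin r → ZMod 2) :
    ∑ l : Fin r → ZMod 2, sg (l ⬝ᵥ m) = if m = 0 then 2 ^ r else 0 := by
  classical
  split_ifs with h
  · subst h
    simp [sg, ZMod.card]
  · obtain ⟨j, hj⟩ : ∃ j, m j ≠ 0 := by
      by_contra hh
      push Not at hh
      exact h (funext hh)
    have hj1 : m j = 1 := by
      generalize m j = a at hj
      revert a
      decide
    have key : ∑ l : Fin r → ZMod 2, sg (l ⬝ᵥ m) = ∑ l : Fin r → ZMod 2, - sg (l ⬝ᵥ m) := by
      rw [← Equiv.sum_comp (Equiv.addRight (Pi.single j 1 : Fin r → ZMod 2))]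
      refine Finset.sum_congr rfl fun l _ => ?_
      rw [Equiv.coe_addRight, add_dotProduct, sg_add, single_dotProduct, hj1]
      simp [sg]
    rw [Finset.sum_neg_distrib] at key
    omega

/-- the indicator of a vector -/
theorem ind_sg {r : ℕ} (a c : Fin r → ZMod 2) :
    (2 ^ r : ℤ) * (if c = a then 1 else 0) = ∑ l : Fin r → ZMod 2, sg (l ⬝ᵥ c) * sg (l ⬝ᵥ a) := by
  have h := sum_sg (c + a)
  simp only [dotProduct_add, sg_add] at h
  rw [h]
  have h2 : c + a = 0 ↔ c = a := by
    constructor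
    · intro h3
      exact two_eq c a h3
    · rintro rfl
      exact add_self_vec c
  by_cases h3 : c = a
  · rw [if_pos (h2.2 h3), if_pos h3, mul_one]
  · rw [if_neg (fun h4 => h3 (h2.1 h4)), if_neg h3, mul_zero]

/-- sums of a function of the labels over the outgoing and the ingoing arcs at a vertex agree -/
theorem LabBal.sum_eq [Fintype V] {G : SimpleGraph V} {K : Type} [Fintype K] {L : V → V → K}
    (h : LabBal G L) (g : K → ℤ) (v : V) [DecidableRel G.Adj] :
    ∑ w, (if G.Adj v w then g (L v w) else 0) = ∑ w, (if G.Adj v w then g (L w v) else 0) := by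
  classical
  have key : ∀ M : V → K, ∑ w, (if G.Adj v w then g (M w) else 0) =
      ∑ c, g c * ∑ w, (if G.Adj v w ∧ c = M w then (1 : ℤ) else 0) := by
    intro M
    simp only [Finset.mul_sum]
    rw [Finset.sum_comm]
    refine Finset.sum_congr rfl fun w _ => ?_
    by_cases h1 : G.Adj v w
    · simp [h1]
    · simp [h1]
  rw [key, key]
  refine Finset.sum_congr rfl fun c _ => ?_
  have := h.bal c v
  congr 1
  convert this

theorem sum_ind_ncard [Fintype V] (P : V → Prop) [DecidablePred P] :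
    ∑ w, (if P w then (1 : ℤ) else 0) = ({w | P w}.ncard : ℤ) := by
  rw [Finset.sum_boole, Set.ncard_eq_toFinset_card']
  simp

/-- directed even subgraphs indexed by the elements of `F₂^r` -/
structure Walsh [Fintype V] (G : SimpleGraph V) {r : ℕ} (D : (Fin r → ZMod 2) → V → V → Prop) :
    Prop where
  adj : ∀ l u v, D l u v → G.Adj u v
  anti : ∀ l u v, D l u v → ¬ D l v u
  bal : ∀ l v, {w | D l v w}.ncard = {w | D l w v}.ncard
  hyp : ∀ u v, G.Adj u v → ∃ x : Fin r → ZMod 2, x ≠ 0 ∧ ∀ l, (D l u v ∨ D l v u) ↔ l ⬝ᵥ x = 1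
  par : ∀ u v, G.Adj u v → ∀ a b c, (D a u v ∨ D a v u) → (D b u v ∨ D b v u) →
    (D c u v ∨ D c v u) → ((D a u v ↔ D b u v) ↔ (D c u v ↔ D (a + b + c) u v))

theorem dot_cases {r : ℕ} (a b : Fin r → ZMod 2) : a ⬝ᵥ b = 0 ∨ a ⬝ᵥ b = 1 := by
  generalize a ⬝ᵥ b = t
  revert t
  decide

open scoped Classical in
/-- from labels to directed even subgraphs -/
theorem walsh_of_lab [Fintype V] {G : SimpleGraph V} {r : ℕ} {L : V → V → (Fin r → ZMod 2)}
    (h : LabBal G L) :
    Walsh G (fun l u v => G.Adj u v ∧ l ⬝ᵥ L u v = 0 ∧ l ⬝ᵥ L v u = 1) := by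
  have h01 : (0 : ZMod 2) ≠ 1 := by decide
  refine ⟨fun l u v hd => hd.1, fun l u v hd hd' => ?_, fun l v => ?_, fun u v huv => ?_,
    fun u v huv a b c ha hb hc => ?_⟩
  · exact h01 (hd.2.1.symm.trans hd'.2.2)
  · have h1 := h.sum_eq (fun c => sg (l ⬝ᵥ c)) v
    rw [← sub_eq_zero, ← Finset.sum_sub_distrib] at h1
    have h2 : ∀ w, ((if G.Adj v w then sg (l ⬝ᵥ L v w) else 0) -
        (if G.Adj v w then sg (l ⬝ᵥ L w v) else 0)) =
        2 * ((if G.Adj v w ∧ l ⬝ᵥ L v w = 0 ∧ l ⬝ᵥ L w v = 1 then (1 : ℤ) else 0) -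
          (if G.Adj v w ∧ l ⬝ᵥ L w v = 0 ∧ l ⬝ᵥ L v w = 1 then (1 : ℤ) else 0)) := by
      intro w
      by_cases h3 : G.Adj v w
      · simp only [h3, if_true, true_and]
        exact sg_ind _ _
      · simp [h3]
    simp only [h2, ← Finset.mul_sum, Finset.sum_sub_distrib] at h1
    rw [sum_ind_ncard, sum_ind_ncard] at h1
    have h4 : {w | G.Adj w v ∧ l ⬝ᵥ L w v = 0 ∧ l ⬝ᵥ L v w = 1} =
        {w | G.Adj v w ∧ l ⬝ᵥ L w v = 0 ∧ l ⬝ᵥ L v w = 1} := by
      ext w
      simp only [Set.mem_ofPred_eq, G.adj_comm]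
    show {w | G.Adj v w ∧ l ⬝ᵥ L v w = 0 ∧ l ⬝ᵥ L w v = 1}.ncard =
      {w | G.Adj w v ∧ l ⬝ᵥ L w v = 0 ∧ l ⬝ᵥ L v w = 1}.ncard
    rw [h4]
    omega
  · refine ⟨L u v + L v u, fun h1 => h.ne u v huv (two_eq _ _ h1), fun l => ?_⟩
    rw [dotProduct_add]
    have huv' := huv.symm
    have key : ∀ p q : ZMod 2, ((p = 0 ∧ q = 1) ∨ (q = 0 ∧ p = 1)) ↔ p + q = 1 := by decide
    rw [← key]
    simp only [huv, huv', true_and]
  · have huv' := huv.symm
    simp only [huv, huv', true_and] at ha hb hc ⊢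
    simp only [add_dotProduct]
    have key : ∀ p q p' q' p'' q'' : ZMod 2, ((p = 0 ∧ q = 1) ∨ (q = 0 ∧ p = 1)) →
      ((p' = 0 ∧ q' = 1) ∨ (q' = 0 ∧ p' = 1)) → ((p'' = 0 ∧ q'' = 1) ∨ (q'' = 0 ∧ p'' = 1)) →
      (((p = 0 ∧ q = 1) ↔ (p' = 0 ∧ q' = 1)) ↔ ((p'' = 0 ∧ q'' = 1) ↔
        (p + p' + p'' = 0 ∧ q + q' + q'' = 1))) := by decide
    exact key _ _ _ _ _ _ ha hb hc

/-- a function on the complement of a hyperplane with the parity property is given by a vector -/
theorem exists_vector {r : ℕ} (x : Fin r → ZMod 2) (hx : x ≠ 0) (h : (Fin r → ZMod 2) → ZMod 2)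
    (hp : ∀ a b c, a ⬝ᵥ x = 1 → b ⬝ᵥ x = 1 → c ⬝ᵥ x = 1 → h (a + b + c) = h a + h b + h c) :
    ∃ y : Fin r → ZMod 2, ∀ l, l ⬝ᵥ x = 1 → l ⬝ᵥ y = h l := by
  classical
  obtain ⟨j, hj⟩ : ∃ j, x j ≠ 0 := by
    by_contra hh
    push Not at hh
    exact hx (funext hh)
  have hj1 : x j = 1 := by
    generalize x j = a at hj
    revert a
    decide
  set l0 : Fin r → ZMod 2 := Pi.single j 1 with hl0
  have h0 : l0 ⬝ᵥ x = 1 := by rw [hl0, single_dotProduct, hj1, one_mul]
  -- the linear form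
  let A : (Fin r → ZMod 2) → ZMod 2 := fun l => h (l + (1 + l ⬝ᵥ x) • l0) + (1 + l ⬝ᵥ x) * h l0
  have hll : ∀ l, (l + (1 + l ⬝ᵥ x) • l0) ⬝ᵥ x = 1 := by
    intro l
    rw [add_dotProduct, smul_dotProduct, h0, smul_eq_mul, mul_one]
    have key : ∀ t : ZMod 2, t + (1 + t) = 1 := by decide
    exact key _
  have hA1 : ∀ l, l ⬝ᵥ x = 1 → A l = h l := by
    intro l hl
    have h2 : (1 : ZMod 2) + 1 = 0 := by decide
    simp only [A, hl, h2, zero_smul, add_zero, zero_mul]
  have hadd : ∀ a b, A (a + b) = A a + A b := by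
    intro a b
    have h3 := hp (a + (1 + a ⬝ᵥ x) • l0) (b + (1 + b ⬝ᵥ x) • l0) l0 (hll a) (hll b) h0
    have h4 : a + (1 + a ⬝ᵥ x) • l0 + (b + (1 + b ⬝ᵥ x) • l0) + l0 =
        (a + b) + (1 + (a + b) ⬝ᵥ x) • l0 := by
      rw [add_dotProduct]
      have key : ∀ p q s t w : ZMod 2, p + (1 + s) * w + (q + (1 + t) * w) + w =
        p + q + (1 + (s + t)) * w := by decide
      funext i
      exact key _ _ _ _ _
    rw [h4] at h3
    simp only [A]
    rw [h3, add_dotProduct]
    have key : ∀ p q u s t : ZMod 2, p + q + u + (1 + (s + t)) * u =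
      p + (1 + s) * u + (q + (1 + t) * u) := by decide
    exact key _ _ _ _ _
  have hzero : A 0 = 0 := by
    have h3 := hadd 0 0
    rw [add_zero] at h3
    have key : ∀ p : ZMod 2, p = p + p → p = 0 := by decide
    exact key _ h3
  refine ⟨fun i => A (Pi.single i 1), fun l hl => ?_⟩
  rw [← hA1 l hl]
  have hsum : ∀ (s : Finset (Fin r)), A (∑ i ∈ s, l i • (Pi.single i 1 : Fin r → ZMod 2)) =
      ∑ i ∈ s, l i * A (Pi.single i 1) := by
    intro s
    induction s using Finset.induction_on with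
    | empty => simpa using hzero
    | insert i s hi ih =>
      rw [Finset.sum_insert hi, Finset.sum_insert hi, hadd, ih]
      congr 1
      have h5 : l i = 0 ∨ l i = 1 := by
        generalize l i = t
        revert t
        decide
      rcases h5 with h5 | h5
      · rw [h5, zero_smul, zero_mul, hzero]
      · rw [h5, one_smul, one_mul]
  have h6 := hsum univ
  have h7 : ∑ i, l i • (Pi.single i 1 : Fin r → ZMod 2) = l := by
    funext j
    simp [Finset.sum_apply, Pi.single_apply]
  rw [h7] at h6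
  rw [h6]
  rfl

open scoped Classical in
/-- from directed even subgraphs to labels -/
theorem lab_of_walsh [Fintype V] {G : SimpleGraph V} {r : ℕ}
    {D : (Fin r → ZMod 2) → V → V → Prop} (h : Walsh G D) :
    ∃ L : V → V → (Fin r → ZMod 2), LabBal G L ∧
      ∀ l u v, G.Adj u v → (D l u v ↔ l ⬝ᵥ L u v = 0 ∧ l ⬝ᵥ L v u = 1) := by
  have h1 : ∀ u v, ∃ y : Fin r → ZMod 2, G.Adj u v →
      ∀ l, (D l u v ∨ D l v u) → l ⬝ᵥ y = if D l u v then 0 else 1 := by
    intro u v
    by_cases huv : G.Adj u v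
    · obtain ⟨x, hx0, hx⟩ := h.hyp u v huv
      obtain ⟨y, hy⟩ := exists_vector x hx0 (fun l => if D l u v then 0 else 1) (by
        intro a b c ha hb hc
        have h2 := h.par u v huv a b c ((hx a).2 ha) ((hx b).2 hb) ((hx c).2 hc)
        by_cases e1 : D a u v <;> by_cases e2 : D b u v <;> by_cases e3 : D c u v <;>
          by_cases e4 : D (a + b + c) u v <;> simp_all <;> decide)
      exact ⟨y, fun _ l hl => hy l ((hx l).1 hl)⟩
    · exact ⟨0, fun h => absurd h huv⟩
  choose L hL using h1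
  have h01 : (0 : ZMod 2) ≠ 1 := by decide
  have h10 : (1 : ZMod 2) ≠ 0 := by decide
  have hused : ∀ l u v, G.Adj u v → (D l u v ∨ D l v u) →
      (D l u v ↔ l ⬝ᵥ L u v = 0) ∧ (D l u v ↔ l ⬝ᵥ L v u = 1) := by
    intro l u v huv hl
    rw [hL u v huv l hl, hL v u huv.symm l hl.symm]
    rcases hl with hl | hl
    · have h2 := h.anti l u v hl
      simp [hl, h2]
    · have h2 := h.anti l v u hl
      simp [hl, h2]
  have hsum : ∀ u v, G.Adj u v → ∀ x : Fin r → ZMod 2, x ≠ 0 →
      (∀ l, (D l u v ∨ D l v u) ↔ l ⬝ᵥ x = 1) → L u v + L v u = x := by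
    intro u v huv x hx0 hx
    have h2 : ∀ l, l ⬝ᵥ x = 1 → l ⬝ᵥ (L u v + L v u + x) = 0 := by
      intro l hl
      obtain ⟨h3, h4⟩ := hused l u v huv ((hx l).2 hl)
      rw [dotProduct_add, dotProduct_add, hl]
      have key : ∀ p q : ZMod 2, (p = 0 ↔ q = 1) → p + q + 1 = 0 := by decide
      exact key _ _ (h3.symm.trans h4)
    obtain ⟨j, hj⟩ : ∃ j, x j ≠ 0 := by
      by_contra hh
      push Not at hh
      exact hx0 (funext hh)
    have hj1 : x j = 1 := by
      generalize x j = a at hj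
      revert a
      decide
    have h3 : ∀ l, l ⬝ᵥ (L u v + L v u + x) = 0 := by
      intro l
      have h0 : (Pi.single j 1 : Fin r → ZMod 2) ⬝ᵥ x = 1 := by
        rw [single_dotProduct, hj1, one_mul]
      rcases dot_cases l x with h4 | h4
      · have h5 := h2 (l + Pi.single j 1) (by rw [add_dotProduct, h4, h0, zero_add])
        rw [add_dotProduct, h2 _ h0, add_zero] at h5
        exact h5
      · exact h2 l h4
    have h4 : L u v + L v u + x = 0 := by
      funext i
      have h5 := h3 (Pi.single i 1)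
      rw [single_dotProduct, one_mul] at h5
      exact h5
    exact two_eq _ _ h4
  have hrel : ∀ l u v, G.Adj u v → (D l u v ↔ l ⬝ᵥ L u v = 0 ∧ l ⬝ᵥ L v u = 1) := by
    intro l u v huv
    by_cases hl : D l u v ∨ D l v u
    · obtain ⟨h3, h4⟩ := hused l u v huv hl
      constructor
      · exact fun h5 => ⟨h3.1 h5, h4.1 h5⟩
      · exact fun h5 => h3.2 h5.1
    · constructor
      · exact fun h5 => absurd (Or.inl h5) hl
      · rintro ⟨h5, h6⟩
        exfalso
        obtain ⟨x, hx0, hx⟩ := h.hyp u v huv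
        have h7 := hsum u v huv x hx0 hx
        apply hl
        rw [hx, ← h7, dotProduct_add, h5, h6, zero_add]
  refine ⟨L, ⟨fun u v huv h2 => ?_, fun c v => ?_⟩, hrel⟩
  · obtain ⟨x, hx0, hx⟩ := h.hyp u v huv
    have h7 := hsum u v huv x hx0 hx
    rw [h2, add_self_vec] at h7
    exact hx0 h7.symm
  · have hbal : ∀ l : Fin r → ZMod 2, ∑ w, (if G.Adj v w then sg (l ⬝ᵥ L v w) else 0) =
        ∑ w, (if G.Adj v w then sg (l ⬝ᵥ L w v) else 0) := by
      intro l
      rw [← sub_eq_zero, ← Finset.sum_sub_distrib]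
      have h2 : ∀ w, ((if G.Adj v w then sg (l ⬝ᵥ L v w) else 0) -
          (if G.Adj v w then sg (l ⬝ᵥ L w v) else 0)) =
          2 * ((if D l v w then (1 : ℤ) else 0) - (if D l w v then (1 : ℤ) else 0)) := by
        intro w
        by_cases h3 : G.Adj v w
        · have e1 := hrel l v w h3
          have e2 := hrel l w v h3.symm
          rw [if_pos h3, if_pos h3, if_congr e1 rfl rfl, if_congr e2 rfl rfl]
          exact sg_ind _ _
        · have e1 : ¬ D l v w := fun hh => h3 (h.adj l v w hh)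
          have e2 : ¬ D l w v := fun hh => h3 (h.adj l w v hh).symm
          simp [h3, e1, e2]
      simp only [h2, ← Finset.mul_sum, Finset.sum_sub_distrib]
      rw [sum_ind_ncard, sum_ind_ncard, h.bal l v]
      simp
    have h2 : ∀ M : V → (Fin r → ZMod 2), (2 ^ r : ℤ) *
        ∑ w, (if G.Adj v w ∧ c = M w then (1 : ℤ) else 0) =
        ∑ l : Fin r → ZMod 2, sg (l ⬝ᵥ c) * ∑ w, (if G.Adj v w then sg (l ⬝ᵥ M w) else 0) := by
      intro M
      simp only [Finset.mul_sum]
      rw [Finset.sum_comm]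
      refine Finset.sum_congr rfl fun w _ => ?_
      by_cases h3 : G.Adj v w
      · simp only [h3, true_and, if_true]
        exact ind_sg (M w) c
      · simp [h3]
    have h3 := h2 (fun w => L v w)
    have h4 := h2 (fun w => L w v)
    simp only [hbal] at h3
    have h5 : (2 ^ r : ℤ) ≠ 0 := by positivity
    convert mul_left_cancel₀ h5 (h3.trans h4.symm)

/-- **The general equivalence.** -/
theorem famK_iff_walsh [Fintype V] (G : SimpleGraph V) (r : ℕ) :
    FamK G (Fin r → ZMod 2) ↔ ∃ D : (Fin r → ZMod 2) → V → V → Prop, Walsh G D := by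
  constructor
  · intro h
    obtain ⟨L, hL⟩ := lab_of_famK h
    exact ⟨_, walsh_of_lab hL⟩
  · rintro ⟨D, hD⟩
    obtain ⟨L, hL, -⟩ := lab_of_walsh hD
    exact famK_of_lab L hL

/-! ### The Fano plane -/

/-- the points of the Fano plane; the lines are `{j, j + 1, j + 3}` -/
def pt : Fin 7 → Fin 3 → ZMod 2
  | 0 => ![1, 0, 0]
  | 1 => ![0, 1, 0]
  | 2 => ![0, 0, 1]
  | 3 => ![1, 1, 0]
  | 4 => ![0, 1, 1]
  | 5 => ![1, 1, 1]
  | 6 => ![1, 0, 1]

/-- the point `p` is on the line number `j` -/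
def OnLine (j p : Fin 7) : Prop := p = j ∨ p = j + 1 ∨ p = j + 3

instance (j p : Fin 7) : Decidable (OnLine j p) := by unfold OnLine; infer_instance

theorem pt_inj : ∀ p q : Fin 7, pt p = pt q → p = q := by decide +kernel

theorem pt_surj : ∀ a : Fin 3 → ZMod 2, a ≠ 0 → ∃ p, pt p = a := by decide +kernel

theorem pt_ne : ∀ p, pt p ≠ 0 := by decide +kernel

theorem fano_two : ∀ a b : Fin 3 → ZMod 2, a ≠ 0 → b ≠ 0 → a ≠ b →
    (univ.filter fun p : Fin 7 => pt p ⬝ᵥ a = 0 ∧ pt p ⬝ᵥ b = 1).card = 2 := by decide +kernel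

theorem fano_line : ∀ x : Fin 3 → ZMod 2, x ≠ 0 → ∃ j, ∀ p, pt p ⬝ᵥ x = 0 ↔ OnLine j p := by
  decide +kernel

theorem fano_line' : ∀ j : Fin 7, ∃ x : Fin 3 → ZMod 2, x ≠ 0 ∧ ∀ p, pt p ⬝ᵥ x = 1 ↔ ¬ OnLine j p := by
  decide +kernel

theorem fano_sum : ∀ j p q s : Fin 7, ¬ OnLine j p → ¬ OnLine j q → ¬ OnLine j s →
    ∃ t, pt t = pt p + pt q + pt s := by decide +kernel

theorem fano_par : ∀ (j : Fin 7) (F : Fin 7 → Bool), (∀ p, F p = true → ¬ OnLine j p) →
    (univ.filter fun p => F p = true).card = 2 → ∀ p q s t : Fin 7, ¬ OnLine j p → ¬ OnLine j q →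
    ¬ OnLine j s → pt t = pt p + pt q + pt s → ((F p = F q) ↔ (F s = F t)) := by decide +kernel

/-- seven directed even subgraphs; every edge is traversed twice in each direction, and the three
which miss it form a line -/
structure Fano [Fintype V] (G : SimpleGraph V) (A : Fin 7 → V → V → Prop) : Prop where
  adj : ∀ p u v, A p u v → G.Adj u v ∧ ¬ A p v u
  bal : ∀ p v, {w | A p v w}.ncard = {w | A p w v}.ncard
  two : ∀ u v, G.Adj u v → {p | A p u v}.ncard = 2
  line : ∀ u v, G.Adj u v → ∃ j, ∀ p, (¬ A p u v ∧ ¬ A p v u) ↔ OnLine j p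

open scoped Classical in
theorem fano_of_fam [Fintype V] {G : SimpleGraph V} (h : FamK G (Fin 7)) :
    ∃ A : Fin 7 → V → V → Prop, Fano G A := by
  obtain ⟨L', hL'⟩ := lab_of_famK h
  have hL : LabBal G (fun u v => pt (L' u v)) := by
    refine ⟨fun u v huv h1 => hL'.ne u v huv (pt_inj _ _ h1), fun c v => ?_⟩
    by_cases hc : ∃ p, pt p = c
    · obtain ⟨p, rfl⟩ := hc
      have h1 : ∀ q, (pt p = pt q) ↔ p = q := fun q => ⟨pt_inj p q, fun h => by rw [h]⟩
      simp only [h1]
      convert hL'.bal p v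
    · have h1 : ∀ q, ¬ c = pt q := fun q hq => hc ⟨q, hq.symm⟩
      simp [h1]
  have hW := walsh_of_lab hL
  refine ⟨fun p u v => G.Adj u v ∧ pt p ⬝ᵥ pt (L' u v) = 0 ∧ pt p ⬝ᵥ pt (L' v u) = 1, ?_⟩
  refine ⟨fun p u v hA => ⟨hA.1, hW.anti (pt p) u v hA⟩, fun p v => hW.bal (pt p) v,
    fun u v huv => ?_, fun u v huv => ?_⟩
  · have h1 := fano_two (pt (L' u v)) (pt (L' v u)) (pt_ne _) (pt_ne _) (hL.ne u v huv)
    rw [Set.ncard_eq_toFinset_card']
    refine Eq.trans ?_ h1
    congr 1
    ext p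
    simp [huv]
  · have hx : pt (L' u v) + pt (L' v u) ≠ 0 := fun h1 => hL.ne u v huv (two_eq _ _ h1)
    obtain ⟨j, hj⟩ := fano_line _ hx
    refine ⟨j, fun p => ?_⟩
    rw [← hj p, dotProduct_add]
    have huv' := huv.symm
    simp only [huv, huv', true_and]
    have key : ∀ a b : ZMod 2, (¬ (a = 0 ∧ b = 1) ∧ ¬ (b = 0 ∧ a = 1)) ↔ a + b = 0 := by decide
    exact key _ _

open scoped Classical in
theorem fam_of_fano [Fintype V] {G : SimpleGraph V} {A : Fin 7 → V → V → Prop} (h : Fano G A) :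
    FamK G (Fin 7) := by
  set D : (Fin 3 → ZMod 2) → V → V → Prop := fun l u v => ∃ p, pt p = l ∧ A p u v with hD
  have hDp : ∀ p u v, D (pt p) u v ↔ A p u v := by
    intro p u v
    constructor
    · rintro ⟨q, hq, hA⟩
      rw [← pt_inj _ _ hq]
      exact hA
    · exact fun hA => ⟨p, rfl, hA⟩
  have hfilter : ∀ u v, G.Adj u v → (univ.filter fun p => decide (A p u v) = true).card = 2 := by
    intro u v huv
    rw [← h.two u v huv, Set.ncard_eq_toFinset_card']
    congr 1
    ext p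
    simp
  have hW : Walsh G D := by
    refine ⟨?_, ?_, ?_, fun u v huv => ?_, fun u v huv a b c ha hb hc => ?_⟩
    · rintro l u v ⟨p, -, hA⟩
      exact (h.adj p u v hA).1
    · rintro l u v ⟨p, rfl, hA⟩ h2
      rw [hDp] at h2
      exact (h.adj p u v hA).2 h2
    · intro l v
      by_cases hl : ∃ p, pt p = l
      · obtain ⟨p, rfl⟩ := hl
        simp only [hDp]
        exact h.bal p v
      · have h1 : ∀ u w, ¬ D l u w := by
          rintro u w ⟨p, hp, -⟩
          exact hl ⟨p, hp⟩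
        simp [h1]
    · obtain ⟨j, hj⟩ := h.line u v huv
      obtain ⟨x, hx0, hx⟩ := fano_line' j
      refine ⟨x, hx0, fun l => ?_⟩
      by_cases hl : l = 0
      · subst hl
        have h1 : ∀ u w, ¬ D 0 u w := by
          rintro u w ⟨p, hp, -⟩
          exact pt_ne p hp
        simp [h1]
      · obtain ⟨p, rfl⟩ := pt_surj l hl
        rw [hDp, hDp, hx p, ← hj p]
        tauto
    · obtain ⟨j, hj⟩ := h.line u v huv
      have hex : ∀ l, (D l u v ∨ D l v u) → ∃ p, pt p = l ∧ ¬ OnLine j p := by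
        rintro l (⟨p, hp, hA⟩ | ⟨p, hp, hA⟩)
        · exact ⟨p, hp, fun h1 => ((hj p).2 h1).1 hA⟩
        · exact ⟨p, hp, fun h1 => ((hj p).2 h1).2 hA⟩
      obtain ⟨p, rfl, hp⟩ := hex a ha
      obtain ⟨q, rfl, hq⟩ := hex b hb
      obtain ⟨s, rfl, hs⟩ := hex c hc
      obtain ⟨t, ht⟩ := fano_sum j p q s hp hq hs
      rw [← ht]
      simp only [hDp]
      have h1 := fano_par j (fun p => decide (A p u v)) (fun p hA h1 =>
        ((hj p).2 h1).1 (by simpa using hA)) (hfilter u v huv) p q s t hp hq hs ht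
      simp only [decide_eq_decide] at h1
      exact iff_iff_eq.2 (by rw [eq_iff_iff]; exact h1)
  obtain ⟨L, hL, hrel⟩ := lab_of_walsh hW
  have hne0 : ∀ u v, G.Adj u v → L u v ≠ 0 := by
    intro u v huv h0
    have h1 := h.two v u huv.symm
    have h2 : {p | A p v u} = ∅ := by
      ext p
      simp only [Set.mem_ofPred_eq, Set.mem_empty_iff_false, iff_false]
      intro hA
      rw [← hDp, hrel _ _ _ huv.symm, h0] at hA
      simp at hA
    rw [h2] at h1
    simp at h1
  have hL2 : ∀ u v, ∃ q, G.Adj u v → pt q = L u v := by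
    intro u v
    by_cases huv : G.Adj u v
    · obtain ⟨q, hq⟩ := pt_surj _ (hne0 u v huv)
      exact ⟨q, fun _ => hq⟩
    · exact ⟨0, fun h => absurd h huv⟩
  choose L' hL' using hL2
  refine famK_of_lab L' ⟨fun u v huv h1 => ?_, fun p v => ?_⟩
  · apply hL.ne u v huv
    rw [← hL' u v huv, ← hL' v u huv.symm, h1]
  · have h1 := hL.bal (pt p) v
    have h2 : ∀ w, (G.Adj v w ∧ pt p = L v w) ↔ (G.Adj v w ∧ p = L' v w) := by
      intro w
      constructor
      · rintro ⟨h3, h4⟩
        refine ⟨h3, ?_⟩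
        rw [← hL' v w h3] at h4
        exact pt_inj _ _ h4
      · rintro ⟨h3, h4⟩
        exact ⟨h3, by rw [h4, hL' v w h3]⟩
    have h3 : ∀ w, (G.Adj v w ∧ pt p = L w v) ↔ (G.Adj v w ∧ p = L' w v) := by
      intro w
      constructor
      · rintro ⟨h3, h4⟩
        refine ⟨h3, ?_⟩
        rw [← hL' w v h3.symm] at h4
        exact pt_inj _ _ h4
      · rintro ⟨h3, h4⟩
        exact ⟨h3, by rw [h4, hL' w v h3.symm]⟩
    simp only [h2, h3] at h1
    convert h1

end Pool.Agent.H66.OC
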