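import Pool.Agent.H66.OCWalsh
import Pool.Agent.H66.OCParity

/-!
# Oriented double covers and directed even subgraphs: any number of classes
-/

set_option autoImplicit false

namespace Pool.Agent.H66.OC

open Finset Pool.Agent.Q253.OR Pool.Agent.Q253.OD

variable {V : Type}

theorem famK_fin {G : SimpleGraph V} {n : ℕ} : FamK G (Fin n) ↔ Families G n := Iff.rfl

/-- labels of a root flow -/
theorem lab_of_root [Fintype V] {G : SimpleGraph V} (F : V → V → ℕ → ℤ) (h : RootFlow G F) :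
    ∃ (r : ℕ) (L : V → V → (Fin r → ZMod 2)), LabBal G L := by
  classical
  obtain ⟨h1, h2, h3⟩ := h
  have h4 : ∀ u v, ∃ i, G.Adj u v → ∃ j, i ≠ j ∧ F u v = rt i j := by
    intro u v
    by_cases huv : G.Adj u v
    · obtain ⟨i, j, h5, h6⟩ := h2 u v huv
      exact ⟨i, fun _ => ⟨j, h5, h6⟩⟩
    · exact ⟨0, fun h => absurd h huv⟩
  choose L hL using h4
  have hLL : ∀ u v, G.Adj u v → L u v ≠ L v u ∧ F u v = rt (L u v) (L v u) := by
    intro u v huv
    obtain ⟨j, h5, h6⟩ := hL u v huv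
    obtain ⟨j', h7, h8⟩ := hL v u huv.symm
    have h9 : rt (L v u) j' = rt j (L u v) := by
      rw [← h8, h1 u v, h6, rt_neg]
    have h10 := rt_inj h7 h9
    rw [h10.1]
    exact ⟨h5, h6⟩
  obtain ⟨B, hB⟩ : ∃ B, ∀ u v, L u v < B := by
    refine ⟨(∑ u, ∑ v, L u v) + 1, fun u v => Nat.lt_succ_of_le ?_⟩
    exact (Finset.single_le_sum (f := fun v => L u v) (fun _ _ => Nat.zero_le _)
      (Finset.mem_univ v)).trans (Finset.single_le_sum (f := fun u => ∑ v, L u v)
      (fun _ _ => Nat.zero_le _) (Finset.mem_univ u))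
  let enc : ℕ → Fin B → ZMod 2 := fun n i => if i.val = n then 1 else 0
  have henc : ∀ a b, a < B → b < B → enc a = enc b → a = b := by
    intro a b ha hb hh
    by_contra hab
    have := congrFun hh ⟨a, ha⟩
    simp [enc, hab] at this
  have hbal : ∀ (n : ℕ) (v : V), ∑ w, (if G.Adj v w ∧ n = L v w then (1 : ℤ) else 0) =
      ∑ w, (if G.Adj v w ∧ n = L w v then (1 : ℤ) else 0) := by
    intro n v
    have h5 := congrFun (h3 v) n
    rw [← sub_eq_zero, ← Finset.sum_sub_distrib]
    rw [Finset.sum_apply] at h5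
    refine Eq.trans (Finset.sum_congr rfl fun w _ => ?_) h5
    by_cases h6 : G.Adj v w
    · simp only [h6, true_and, if_true]
      rw [(hLL v w h6).2, rt_apply]
    · simp [h6]
  refine ⟨B, fun u v => enc (L u v), fun u v huv h5 => ?_, fun c v => ?_⟩
  · exact (hLL u v huv).1 (henc _ _ (hB u v) (hB v u) h5)
  · by_cases hc : ∃ n, n < B ∧ enc n = c
    · obtain ⟨n, hn, rfl⟩ := hc
      have h6 : ∀ u w, (enc n = enc (L u w)) ↔ n = L u w := fun u w =>
        ⟨henc _ _ hn (hB u w), fun h => by rw [h]⟩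
      simp only [h6]
      convert hbal n v
    · have h6 : ∀ u w, ¬ c = enc (L u w) := fun u w h => hc ⟨L u w, hB u w, h.symm⟩
      simp [h6]

open scoped Classical in
theorem oc_iff_walsh [Fintype V] (G : SimpleGraph V) :
    OC G ↔ ∃ (r : ℕ) (D : (Fin r → ZMod 2) → V → V → Prop), Walsh G D := by
  constructor
  · intro h
    obtain ⟨F, hF⟩ := root_of_oc G h
    obtain ⟨r, L, hL⟩ := lab_of_root F hF
    exact ⟨r, _, walsh_of_lab hL⟩
  · rintro ⟨r, D, hD⟩
    have h := (famK_iff_walsh G r).2 ⟨D, hD⟩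
    have e : (Fin r → ZMod 2) ≃ Fin (Fintype.card (Fin r → ZMod 2)) := Fintype.equivFin _
    exact families_join (famK_fin.1 (h.congr e))

end Pool.Agent.H66.OC
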